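import Pool.Agent.Helper84.FED.Red

namespace Pool.Agent.Helper84.FED

open Pool.Agent.PolyTime

/-- The deletion problem on an abstract graph. -/
def DelYes {V : Type} (G : SimpleGraph V) (k h : ℕ) : Prop :=
  ∃ E' : Finset (Sym2 V), (E' : Set (Sym2 V)) ⊆ G.edgeSet ∧ E'.card ≤ k ∧
    ∀ v, {w | (G.deleteEdges (E' : Set (Sym2 V))).Reachable v w}.ncard ≤ h

theorem delYes_of_iso {V W : Type} {G : SimpleGraph V} {H : SimpleGraph W} (φ : G ≃g H) {k h : ℕ}
    (hG : DelYes G k h) : DelYes H k h := by
  classical
  obtain ⟨E', h1, h2, h3⟩ := hG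
  refine ⟨E'.image (Sym2.map φ), ?_, Finset.card_image_le.trans h2, ?_⟩
  · intro e he
    rw [Finset.coe_image] at he
    obtain ⟨e', he', rfl⟩ := he
    have h4 := h1 he'
    induction e' using Sym2.ind with
    | _ x y =>
      rw [Sym2.map_mk, SimpleGraph.mem_edgeSet]
      exact φ.map_adj_iff.2 (by simpa using h4)
  · let ψ : G.deleteEdges (E' : Set (Sym2 V)) ≃g H.deleteEdges ((E'.image (Sym2.map φ) : Finset (Sym2 W)) : Set (Sym2 W)) :=
      { toEquiv := φ.toEquiv
        map_rel_iff' := by
          intro a b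
          rw [SimpleGraph.deleteEdges_adj, SimpleGraph.deleteEdges_adj]
          have hab : H.Adj (φ.toEquiv a) (φ.toEquiv b) ↔ G.Adj a b := φ.map_adj_iff
          rw [hab]
          have hmem : s(φ.toEquiv a, φ.toEquiv b) ∈ ((E'.image (Sym2.map φ) : Finset (Sym2 W)) : Set (Sym2 W)) ↔
              s(a, b) ∈ (E' : Set (Sym2 V)) := by
            rw [Finset.coe_image]
            constructor
            · rintro ⟨e, he, he'⟩
              have : Sym2.map φ e = Sym2.map φ s(a, b) := he'.trans (by rw [Sym2.map_mk]; rfl)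
              rw [Sym2.map.injective φ.injective this] at he
              exact he
            · intro he
              exact ⟨s(a, b), he, by rw [Sym2.map_mk]; rfl⟩
          rw [hmem] }
    intro w
    have h4 := h3 (φ.symm w)
    have h5 : {w' | (H.deleteEdges ((E'.image (Sym2.map φ) : Finset (Sym2 W)) : Set (Sym2 W))).Reachable w w'} =
        φ '' {v | (G.deleteEdges (E' : Set (Sym2 V))).Reachable (φ.symm w) v} := by
      ext w'
      constructor
      · intro hw
        refine ⟨φ.symm w', ?_, by simp⟩
        have := ψ.reachable_iff (u := φ.symm w) (v := φ.symm w')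
        refine this.1 ?_
        have e1 : ψ (φ.symm w) = w := φ.apply_symm_apply w
        have e2 : ψ (φ.symm w') = w' := φ.apply_symm_apply w'
        rw [e1, e2]
        exact hw
      · rintro ⟨v, hv, rfl⟩
        have := (ψ.reachable_iff (u := φ.symm w) (v := v)).2 hv
        have e1 : ψ (φ.symm w) = w := φ.apply_symm_apply w
        rw [e1] at this
        exact this
    rw [h5, Set.ncard_image_of_injective _ φ.injective]
    exact h4

theorem delYes_iff_of_iso {V W : Type} {G : SimpleGraph V} {H : SimpleGraph W} (φ : G ≃g H) {k h : ℕ} :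
    DelYes G k h ↔ DelYes H k h := ⟨delYes_of_iso φ, delYes_of_iso φ.symm⟩

theorem isYesDeletion_iff (I : Mat × ℕ × ℕ) : IsYesDeletion I ↔ DelYes (graphOf I.1) I.2.1 I.2.2 := by
  unfold IsYesDeletion DelYes
  have key : ∀ (G : SimpleGraph (Fin I.1.length)) (v : Fin I.1.length),
      (G.connectedComponentMk v).supp = {w | G.Reachable v w} := by
    intro G v
    ext w
    rw [SimpleGraph.ConnectedComponent.mem_supp_iff, SimpleGraph.ConnectedComponent.eq]
    exact ⟨fun h => h.symm, fun h => h.symm⟩
  constructor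
  · rintro ⟨E', h1, h2, h3⟩
    refine ⟨E', h1, h2, fun v => ?_⟩
    rw [← key]
    exact h3 _
  · rintro ⟨E', h1, h2, h3⟩
    refine ⟨E', h1, h2, fun c => ?_⟩
    induction c using SimpleGraph.ConnectedComponent.ind with
    | _ v =>
      rw [key]
      exact h3 v

/-- `k`-Clique in terms of functions. -/
theorem isYesClique_iff (M : Mat) (k : ℕ) : IsYesClique (M, k) ↔
    ∃ f : Fin k → ℕ, (∀ i, f i < M.length) ∧ ∀ i j, i ≠ j → adjB M (f i) (f j) = true := by
  classical
  constructor
  · rintro ⟨s, hs⟩
    rw [SimpleGraph.isNClique_iff] at hs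
    obtain ⟨h1, h2⟩ := hs
    have h2' : s.card = k := h2
    let e := (s.equivFinOfCardEq h2').symm
    refine ⟨fun i => ((e i : Fin M.length) : ℕ), fun i => (e i : Fin M.length).2, ?_⟩
    intro i j hij
    have hne : (e i : Fin M.length) ≠ (e j : Fin M.length) := fun h => hij (e.injective (Subtype.ext h))
    have h3 : (graphOf M).Adj (e i) (e j) := h1 (e i).2 (e j).2 hne
    unfold adjB
    simp only [Bool.and_eq_true, Bool.not_eq_true', decide_eq_false_iff_not, Bool.or_eq_true]
    exact ⟨fun h => hne (Fin.ext h), h3.2⟩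
  · rintro ⟨f, hf, hadj⟩
    let g : Fin k → Fin M.length := fun i => ⟨f i, hf i⟩
    have h1 : ∀ i j, i ≠ j → (graphOf M).Adj (g i) (g j) := by
      intro i j hij
      have h2 := hadj i j hij
      unfold adjB at h2
      simp only [Bool.and_eq_true, Bool.not_eq_true', decide_eq_false_iff_not, Bool.or_eq_true] at h2
      exact ⟨fun h => h2.1 (congrArg Fin.val h), h2.2⟩
    have hinj : Function.Injective g := by
      intro i j h
      by_contra hij
      exact (h1 i j hij).ne h
    refine ⟨Finset.univ.map ⟨g, hinj⟩, ?_⟩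
    rw [SimpleGraph.isNClique_iff]
    constructor
    · intro x hx y hy hxy
      simp only [Finset.coe_map, Function.Embedding.coeFn_mk, Finset.coe_univ, Set.image_univ, Set.mem_range] at hx hy
      obtain ⟨i, rfl⟩ := hx
      obtain ⟨j, rfl⟩ := hy
      exact h1 i j (fun h => hxy (by rw [h]))
    · rw [Finset.card_map, Finset.card_univ, Fintype.card_fin]

section numbering
variable {k h : ℕ}

def quadCode (k h : ℕ) (q : Quad) : ℕ := ((q.1 * k + q.2.1) * k + q.2.2.1) * h + q.2.2.2

theorem decF_quadCode {q : Quad} (h1 : q.2.1 < k) (h2 : q.2.2.1 < k) (h3 : q.2.2.2 < h) : decF k h (quadCode k h q) = q := by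
  obtain ⟨a, i, j, r⟩ := q
  simp only at h1 h2 h3
  have hk : 0 < k := by omega
  have hh : 0 < h := by omega
  have e1 : (((a * k + i) * k + j) * h + r) % h = r := by
    rw [Nat.mul_add_mod_self_right, Nat.mod_eq_of_lt h3]
  have e2 : (((a * k + i) * k + j) * h + r) / h = (a * k + i) * k + j := by
    rw [Nat.add_comm, Nat.add_mul_div_right _ _ hh, Nat.div_eq_of_lt h3, zero_add]
  have e3 : ((a * k + i) * k + j) % k = j := by
    rw [Nat.mul_add_mod_self_right, Nat.mod_eq_of_lt h2]
  have e4 : ((a * k + i) * k + j) / k = a * k + i := by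
    rw [Nat.add_comm, Nat.add_mul_div_right _ _ hk, Nat.div_eq_of_lt h2, zero_add]
  have e5 : (a * k + i) % k = i := by
    rw [Nat.mul_add_mod_self_right, Nat.mod_eq_of_lt h1]
  have e6 : (a * k + i) / k = a := by
    rw [Nat.add_comm, Nat.add_mul_div_right _ _ hk, Nat.div_eq_of_lt h1, zero_add]
  unfold decF quadCode
  simp only
  rw [e1, e2, e3, e4, e5, e6]

theorem quadCode_decF (u : ℕ) : quadCode k h (decF k h u) = u := by
  unfold quadCode decF
  simp only
  have e1 := Nat.div_add_mod u h
  have e2 := Nat.div_add_mod (u / h) k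
  have e3 := Nat.div_add_mod (u / h / k) k
  have e3' : u / h / k / k * k + u / h / k % k = u / h / k := by rw [Nat.mul_comm]; exact e3
  rw [e3']
  have e2' : u / h / k * k + u / h % k = u / h := by rw [Nat.mul_comm]; exact e2
  rw [e2']
  rw [Nat.mul_comm]; exact e1

theorem quadCode_lt {q : Quad} (h0 : q.1 < 5) (h1 : q.2.1 < k) (h2 : q.2.2.1 < k) (h3 : q.2.2.2 < h) :
    quadCode k h q < 5 * (k * k * h) := by
  obtain ⟨a, i, j, r⟩ := q
  simp only at h0 h1 h2 h3
  unfold quadCode
  simp only
  have e1 : a * k + i < 5 * k := by nlinarith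
  have e2 : (a * k + i) * k + j < 5 * k * k := by nlinarith
  have e3 : ((a * k + i) * k + j) * h + r < 5 * k * k * h := by nlinarith
  calc _ < 5 * k * k * h := e3
    _ = _ := by ring

theorem decF_bounds {u : ℕ} (hk : 0 < k) (hh : 0 < h) (hu : u < 5 * (k * k * h)) :
    (decF k h u).1 < 5 ∧ (decF k h u).2.1 < k ∧ (decF k h u).2.2.1 < k ∧ (decF k h u).2.2.2 < h := by
  refine ⟨?_, Nat.mod_lt _ hk, Nat.mod_lt _ hk, Nat.mod_lt _ hh⟩
  show u / h / k / k < 5
  rw [Nat.div_div_eq_div_mul, Nat.div_div_eq_div_mul]
  rw [Nat.div_lt_iff_lt_mul (by positivity)]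
  calc u < 5 * (k * k * h) := hu
    _ = 5 * (h * (k * k)) := by ring

end numbering

section corr
variable (M : Mat) (k : ℕ)

abbrev gridM : Net (Bool × Fin k × Fin k) (Fin 3 × Fin k × Fin k) := grid M.length k (adjB M)

def quadV (v : (gridM M k).V) : Quad :=
  match v.1 with
  | .inl g => (bif g.1 then 1 else 0, g.2.1, g.2.2, v.2)
  | .inr e => (2 + e.1, e.2.1, e.2.2, v.2)

variable {M k}

theorem alwF_eq (t : Fin 3) (i j p : ℕ) : alwF (M, 2 + t.val - 2, i, j, p) = alw M.length (adjB M) t i j p := by
  have : 2 + t.val - 2 = t.val := by omega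
  rw [this]
  unfold alwF alw
  simp only
  by_cases h0 : t.val = 0
  · simp [h0]
  · by_cases h1 : t.val = 1
    · simp [h1]
    · simp only [h0, h1, decide_false, cond_false, if_false]
      by_cases h2 : i = j
      · simp [h2]
      · simp [h2]

theorem last_congr {al al' : ℕ → Bool} (h : ∀ w, al w = al' w) (q : ℕ) : last al q = last al' q := by
  have : al = al' := funext h
  rw [this]

theorem lastF_arc (t : Fin 3) (i j q : ℕ) (hq : q ≤ gW M.length) :
    lastF (M, 2 + t.val - 2, i, j, q) = last (fun p => alw M.length (adjB M) t i j p) q := by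
  rw [lastF_eq _ _ _ _ _ hq]
  exact last_congr (fun w => alwF_eq t i j w) q

theorem quadV_inj : Function.Injective (quadV M k) := by
  rintro ⟨a, r⟩ ⟨b, s⟩ hab
  unfold quadV at hab
  rcases a with ⟨b1, i1, j1⟩ | ⟨t1, i1, j1⟩ <;> rcases b with ⟨b2, i2, j2⟩ | ⟨t2, i2, j2⟩ <;>
    simp only [Prod.mk.injEq, Fin.val_inj] at hab
  · obtain ⟨h1, rfl, rfl, rfl⟩ := hab
    have : b1 = b2 := by revert h1; cases b1 <;> cases b2 <;> simp
    rw [this]
  · exfalso; revert hab; cases b1 <;> simp <;> omega
  · exfalso; revert hab; cases b2 <;> simp <;> omega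
  · obtain ⟨h1, rfl, rfl, rfl⟩ := hab
    have : t1 = t2 := Fin.ext (by omega)
    rw [this]

theorem quadV_bounds (v : (gridM M k).V) :
    (quadV M k v).1 < 5 ∧ (quadV M k v).2.1 < k ∧ (quadV M k v).2.2.1 < k ∧ (quadV M k v).2.2.2 < gh M.length k := by
  obtain ⟨a, r⟩ := v
  unfold quadV
  rcases a with ⟨b1, i1, j1⟩ | ⟨t1, i1, j1⟩
  · refine ⟨?_, i1.2, j1.2, r.2⟩
    cases b1 <;> simp
  · refine ⟨?_, i1.2, j1.2, r.2⟩
    simp only
    have := t1.2
    omega

theorem quadV_surj {q : Quad} (h0 : q.1 < 5) (h1 : q.2.1 < k) (h2 : q.2.2.1 < k) (h3 : q.2.2.2 < gh M.length k) :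
    ∃ v, quadV M k v = q := by
  obtain ⟨a, i, j, r⟩ := q
  simp only at h0 h1 h2 h3
  by_cases ha : a < 2
  · refine ⟨(.inl (decide (a = 1), ⟨i, h1⟩, ⟨j, h2⟩), ⟨r, h3⟩), ?_⟩
    unfold quadV
    simp only [Prod.mk.injEq, and_true]
    have : a = 0 ∨ a = 1 := by omega
    rcases this with rfl | rfl <;> simp
  · refine ⟨(.inr (⟨a - 2, by omega⟩, ⟨i, h1⟩, ⟨j, h2⟩), ⟨r, h3⟩), ?_⟩
    unfold quadV
    simp only [Prod.mk.injEq, and_true]
    omega

theorem nxF_eq {k : ℕ} (j : Fin k) : nxF k j = (nx j).val := by
  rw [nx_val]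
  unfold nxF
  by_cases h : j.val + 1 = k <;> simp [h]

theorem edgeF_iff (v w : (gridM M k).V) :
    edgeF ((M, k), quadV M k v, quadV M k w) = true ↔ (gridM M k).E v w := by
  obtain ⟨a, r⟩ := v
  obtain ⟨b, s⟩ := w
  rcases a with ⟨b1, i1, j1⟩ | ⟨t1, i1, j1⟩ <;> rcases b with ⟨b2, i2, j2⟩ | ⟨t2, i2, j2⟩
  · -- hub hub
    have hb1 : decide ((bif b1 then 1 else 0) < 2) = true := by cases b1 <;> simp
    have hb2 : decide ((bif b2 then 1 else 0) < 2) = true := by cases b2 <;> simp
    have hE : (gridM M k).E (Sum.inl (b1, i1, j1), r) (Sum.inl (b2, i2, j2), s) ↔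
      ((b1, i1, j1) = (b2, i2, j2) ∧ 1 ≤ r.val ∧ r.val ≤ (gridM M k).Lf (b1, i1, j1) ∧ s.val = 0) := Iff.rfl
    rw [hE]
    have hL : (gridM M k).Lf (b1, i1, j1) = if b1 = true then gh M.length k - 1 - 2 * gW M.length else gh M.length k - 1 - gW M.length := rfl
    rw [hL]
    unfold edgeF quadV
    simp only [hb1, hb2, cond_true, Bool.and_eq_true, decide_eq_true_eq, Prod.mk.injEq, Fin.val_inj]
    have e1 : ((bif b1 then 1 else 0) = (bif b2 then 1 else 0 : ℕ)) ↔ b1 = b2 := by cases b1 <;> cases b2 <;> simp
    have e2 : (bif decide ((bif b1 then 1 else 0 : ℕ) = 1) then gh M.length k - 1 - 2 * gW M.length else gh M.length k - 1 - gW M.length)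
      = if b1 = true then gh M.length k - 1 - 2 * gW M.length else gh M.length k - 1 - gW M.length := by cases b1 <;> simp
    rw [e1, e2]
    tauto
  · -- hub arc
    have hb1 : decide ((bif b1 then 1 else 0) < 2) = true := by cases b1 <;> simp
    have hb2 : decide (2 + t2.val < 2) = false := decide_eq_false (by omega)
    have hE : (gridM M k).E (Sum.inl (b1, i1, j1), r) (Sum.inr (t2, i2, j2), s) ↔
      (r.val = 0 ∧ (decide (t2.val ≤ 1), i2, j2) = (b1, i1, j1) ∧ s.val < gW M.length ∧
        last (fun p => alw M.length (adjB M) t2 i2 j2 p) (gW M.length) = s.val + 1) := Iff.rfl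
    rw [hE]
    unfold edgeF quadV
    simp only [hb1, hb2, cond_true, cond_false, Bool.and_eq_true, decide_eq_true_eq, Prod.mk.injEq, Fin.val_inj]
    rw [lastF_arc _ _ _ _ le_rfl]
    have e1 : ((bif b1 then 1 else 0 : ℕ) = (bif decide (2 + t2.val ≤ 3) then 1 else 0)) ↔ decide (t2.val ≤ 1) = b1 := by
      by_cases h : t2.val ≤ 1
      · have h' : 2 + t2.val ≤ 3 := by omega
        simp only [h, h', decide_true, cond_true]
        cases b1 <;> simp
      · have h' : ¬ 2 + t2.val ≤ 3 := by omega
        simp only [h, h', decide_false, cond_false]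
        cases b1 <;> simp
    rw [e1]
    tauto
  · -- arc hub
    have hb1 : decide (2 + t1.val < 2) = false := decide_eq_false (by omega)
    have hb2 : decide ((bif b2 then 1 else 0) < 2) = true := by cases b2 <;> simp
    have hE : (gridM M k).E (Sum.inr (t1, i1, j1), r) (Sum.inl (b2, i2, j2), s) ↔
      (r.val < gW M.length ∧ s.val = 0 ∧ (if t1.val = 0 then (false, i1, nx j1) else if t1.val = 1 then (false, nx i1, j1)
        else (true, i1, j1)) = (b2, i2, j2) ∧
        last (fun p => alw M.length (adjB M) t1 i1 j1 p) r.val = 0) := Iff.rfl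
    rw [hE]
    unfold edgeF quadV
    simp only [hb1, hb2, cond_true, cond_false, Bool.and_eq_true, decide_eq_true_eq]
    by_cases hr : r.val < gW M.length
    · rw [lastF_arc _ _ _ _ hr.le]
      have e1 : ((bif decide (2 + t1.val = 2) then decide ((bif b2 then 1 else 0 : ℕ) = 0) && (decide (i2.val = i1.val) && decide (j2.val = nxF k j1.val))
        else bif decide (2 + t1.val = 3) then decide ((bif b2 then 1 else 0 : ℕ) = 0) && (decide (i2.val = nxF k i1.val) && decide (j2.val = j1.val))
        else decide ((bif b2 then 1 else 0 : ℕ) = 1) && (decide (i2.val = i1.val) && decide (j2.val = j1.val))) = true) ↔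
        (if t1.val = 0 then (false, i1, nx j1) else if t1.val = 1 then (false, nx i1, j1)
        else (true, i1, j1)) = (b2, i2, j2) := by
        rw [nxF_eq, nxF_eq]
        by_cases h0 : t1.val = 0
        · have h0' : 2 + t1.val = 2 := by omega
          rw [if_pos h0]
          simp only [h0', decide_true, cond_true, Bool.and_eq_true, decide_eq_true_eq, Prod.mk.injEq, Fin.val_inj]
          rw [eq_comm (a := i2), eq_comm (a := j2)]
          cases b2 <;> simp
        · by_cases h1 : t1.val = 1
          · have h0' : ¬ 2 + t1.val = 2 := by omega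
            have h1' : 2 + t1.val = 3 := by omega
            rw [if_neg h0, if_pos h1]
            have h32 : ¬ (3:ℕ) = 2 := by norm_num
            simp only [h32, h1', decide_true, decide_false, cond_true, cond_false, Bool.and_eq_true, decide_eq_true_eq, Prod.mk.injEq, Fin.val_inj]
            rw [eq_comm (a := i2), eq_comm (a := j2)]
            cases b2 <;> simp
          · have h0' : ¬ 2 + t1.val = 2 := by omega
            have h1' : ¬ 2 + t1.val = 3 := by omega
            rw [if_neg h0, if_neg h1]
            simp only [h0', h1', decide_false, cond_false, Bool.and_eq_true, decide_eq_true_eq, Prod.mk.injEq, Fin.val_inj]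
            rw [eq_comm (a := i2), eq_comm (a := j2)]
            cases b2 <;> simp
      rw [e1]
      tauto
    · simp only [hr, false_and]
  · -- arc arc
    have hb1 : decide (2 + t1.val < 2) = false := decide_eq_false (by omega)
    have hb2 : decide (2 + t2.val < 2) = false := decide_eq_false (by omega)
    have hE : (gridM M k).E (Sum.inr (t1, i1, j1), r) (Sum.inr (t2, i2, j2), s) ↔
      ((t1, i1, j1) = (t2, i2, j2) ∧ r.val < gW M.length ∧
        last (fun p => alw M.length (adjB M) t1 i1 j1 p) r.val = s.val + 1) := Iff.rfl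
    rw [hE]
    unfold edgeF quadV
    simp only [hb1, hb2, cond_false, Bool.and_eq_true, decide_eq_true_eq, Prod.mk.injEq, Fin.val_inj]
    have e1 : 2 + t1.val = 2 + t2.val ↔ t1 = t2 := by
      constructor
      · intro h; exact Fin.ext (by omega)
      · rintro rfl; rfl
    rw [e1]
    by_cases hr : r.val < gW M.length
    · rw [lastF_arc _ _ _ _ hr.le]
      tauto
    · simp only [hr, false_and, and_false]

end corr

/-- the graph of the output matrix is the net graph -/
theorem entry_mat (N : ℕ) (f : ℕ → ℕ → Bool) {u v : ℕ} (hu : u < N) (hv : v < N) :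
    entry ((List.range N).map fun u => (List.range N).map fun v => f u v) u v = f u v := by
  unfold entry
  simp [List.getD, hu, hv]

theorem matF_length (z : Mat × ℕ) : (matF z).length = numF z := by
  unfold matF
  simp

theorem deletion_iff_grid (M : Mat) (k : ℕ) (hk0 : 0 < k) (hk : k ≤ M.length) (K h : ℕ) :
    DelYes (graphOf (matF (M, k))) K h ↔ DelYes (gridM M k).G K h := by
  have hnum : numF (M, k) = 5 * (k * k * gh M.length k) := by
    unfold numF
    simp only [min_eq_right hk]
  have hgh : 0 < gh M.length k := by unfold gh; omega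
  have hlt : ∀ v : (gridM M k).V, quadCode k (gh M.length k) (quadV M k v) < (matF (M, k)).length := by
    intro v
    rw [matF_length, hnum]
    obtain ⟨h1, h2, h3, h4⟩ := quadV_bounds v
    exact quadCode_lt h1 h2 h3 h4
  let F : (gridM M k).V → Fin (matF (M, k)).length := fun v => ⟨quadCode k (gh M.length k) (quadV M k v), hlt v⟩
  have hdec : ∀ v, decF k (gh M.length k) (F v).val = quadV M k v := by
    intro v
    obtain ⟨h1, h2, h3, h4⟩ := quadV_bounds v
    exact decF_quadCode h2 h3 h4
  have hbij : Function.Bijective F := by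
    constructor
    · intro v w hvw
      apply quadV_inj
      rw [← hdec v, ← hdec w, hvw]
    · intro u
      have hu : u.val < 5 * (k * k * gh M.length k) :=
        lt_of_lt_of_eq u.2 ((matF_length _).trans hnum)
      obtain ⟨h1, h2, h3, h4⟩ := decF_bounds hk0 hgh hu
      obtain ⟨v, hv⟩ := quadV_surj (M := M) h1 h2 h3 h4
      refine ⟨v, Fin.ext ?_⟩
      show quadCode k (gh M.length k) (quadV M k v) = u.val
      rw [hv, quadCode_decF]
  have hE : ∀ v w, entry (matF (M, k)) (F v).val (F w).val = true ↔ (gridM M k).E v w := by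
    intro v w
    have h1 : (F v).val < numF (M, k) := lt_of_lt_of_eq (F v).2 (matF_length _)
    have h2 : (F w).val < numF (M, k) := lt_of_lt_of_eq (F w).2 (matF_length _)
    unfold matF
    rw [entry_mat _ _ h1 h2]
    unfold edgeN
    simp only
    rw [hdec, hdec]
    exact edgeF_iff v w
  let φ : (gridM M k).G ≃g graphOf (matF (M, k)) :=
    { toEquiv := Equiv.ofBijective F hbij
      map_rel_iff' := by
        intro a b
        show (F a ≠ F b ∧ (entry (matF (M, k)) (F a).val (F b).val = true ∨ entry (matF (M, k)) (F b).val (F a).val = true)) ↔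
          (SimpleGraph.fromRel (gridM M k).E).Adj a b
        rw [hE, hE, SimpleGraph.fromRel_adj]
        exact and_congr_left' (not_congr hbij.1.eq_iff) }
  exact (delYes_iff_of_iso φ).symm

theorem grid_main (M : Mat) (k : ℕ) (hk : k ≤ M.length) :
    DelYes (gridM M k).G (3 * (k * k)) (gh M.length k) ↔ IsYesClique (M, k) := by
  have hgood := grid_good M.length k (adjB M) hk
  rw [isYesClique_iff]
  constructor
  · rintro ⟨E', _, h2, h3⟩
    obtain ⟨x, hx1, hx2⟩ := Net.forward hgood (h := gh M.length k) (grid_hh M.length k (adjB M)) (grid_hbig M.length k (adjB M)) E'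
      (by rw [grid_card]; exact h2) h3
    exact circ_clique hx1 hx2
  · rintro ⟨f, hf, hadj⟩
    obtain ⟨x, hx1, hx2⟩ := clique_circ hf hadj
    have h1 : 1 ≤ gh M.length k := by unfold gh; omega
    obtain ⟨E', h2, h3, h4⟩ := Net.backward hgood (h := gh M.length k) (grid_hh M.length k (adjB M)) h1 x hx1 hx2
    rw [grid_card] at h3
    exact ⟨E', h2, h3, h4⟩

theorem yes_small : IsYesDeletion ([[false]], 1, 1) := by
  rw [isYesDeletion_iff]
  refine ⟨∅, by simp, by simp, fun v => ?_⟩
  have h1 : ∀ s : Set (Fin ([[false]] : Mat).length), s.ncard ≤ 1 := by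
    intro s
    have h2 := Set.ncard_le_card s
    have h3 : Fintype.card (Fin ([[false]] : Mat).length) = 1 := by simp
    have h4 : Nat.card (Fin ([[false]] : Mat).length) = 1 := by simp
    omega
  exact h1 _

theorem not_yes_triangle :
    ¬ IsYesDeletion ([[false, true, true], [true, false, true], [true, true, false]], 1, 1) := by
  rw [isYesDeletion_iff]
  rintro ⟨E', h1, h2, h3⟩
  have hadj : ∀ a b : Fin 3, a ≠ b → (graphOf [[false, true, true], [true, false, true], [true, true, false]]).Adj a b := by
    intro a b hab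
    refine ⟨hab, ?_⟩
    revert hab
    fin_cases a <;> fin_cases b <;> simp [entry]
  have hmem : ∀ a b : Fin 3, a ≠ b → s(a, b) ∈ E' := by
    intro a b hab
    by_contra hn
    have h4 : ((graphOf [[false, true, true], [true, false, true], [true, true, false]]).deleteEdges (E' : Set (Sym2 (Fin 3)))).Adj a b := by
      rw [SimpleGraph.deleteEdges_adj]
      exact ⟨hadj a b hab, by simpa using hn⟩
    have h5 := h3 a
    have h6 : ({a, b} : Set (Fin 3)) ⊆ {w | ((graphOf [[false, true, true], [true, false, true], [true, true, false]]).deleteEdges (E' : Set (Sym2 (Fin 3)))).Reachable a w} := by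
      rintro w (rfl | rfl)
      · exact SimpleGraph.Reachable.refl _
      · exact h4.reachable
    have h7 := Set.ncard_le_ncard h6 (Set.toFinite _)
    rw [Set.ncard_pair hab] at h7
    exact absurd (h7.trans h5) (by norm_num)
  have h4 : ({s(0, 1), s(0, 2)} : Finset (Sym2 (Fin 3))) ⊆ E' := by
    intro e he
    simp only [Finset.mem_insert, Finset.mem_singleton] at he
    rcases he with rfl | rfl
    · exact hmem _ _ (by decide)
    · exact hmem _ _ (by decide)
  have h5 := Finset.card_le_card h4
  have h6 : ({s(0, 1), s(0, 2)} : Finset (Sym2 (Fin 3))).card = 2 := by decide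
  have h7 : E'.card ≤ 1 := h2
  omega

theorem redF_correct (I : Mat × ℕ) : IsYesClique I ↔ IsYesDeletion (redF I) := by
  obtain ⟨M, k⟩ := I
  unfold redF
  simp only
  by_cases h0 : k = 0
  · subst h0
    simp only [decide_true, cond_true]
    refine iff_of_true ?_ yes_small
    rw [isYesClique_iff]
    exact ⟨fun i => i.elim0, fun i => i.elim0, fun i => i.elim0⟩
  · simp only [h0, decide_false, cond_false]
    by_cases h1 : M.length < k
    · simp only [h1, decide_true, cond_true]
      refine iff_of_false ?_ not_yes_triangle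
      rintro ⟨s, hs⟩
      rw [SimpleGraph.isNClique_iff] at hs
      have h2 := Finset.card_le_univ s
      rw [hs.2, Fintype.card_fin] at h2
      simp only at h2
      omega
    · simp only [h1, decide_false, cond_false]
      rw [isYesDeletion_iff, deletion_iff_grid M k (by omega) (by omega), grid_main M k (by omega)]

theorem redF_param (I : Mat × ℕ) : 1 ≤ (redF I).2.1 ∧ 1 ≤ (redF I).2.2 ∧ (redF I).2.1 ≤ 3 * I.2 ^ 2 + 1 := by
  obtain ⟨M, k⟩ := I
  unfold redF
  simp only
  by_cases h0 : k = 0
  · simp [h0]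
  · simp only [h0, decide_false, cond_false]
    by_cases h1 : M.length < k
    · simp only [h1, decide_true, cond_true]
      refine ⟨by norm_num, by norm_num, by omega⟩
    · simp only [h1, decide_false, cond_false]
      refine ⟨?_, ?_, ?_⟩
      · have : 1 ≤ k * k := by nlinarith [Nat.pos_of_ne_zero h0]
        omega
      · unfold gh; omega
      · nlinarith

theorem pairCode_eq (u v : List Bool) : pairCode u v = pr u v := by
  induction u with
  | nil => rfl
  | cons b u ih => rw [pairCode, ih]; rfl

theorem listCode_eq {α : Type} [PEnc α] {c : α → List Bool} (hc : ∀ a, c a = enc a) (l : List α) : listCode c l = enc l := by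
  induction l with
  | nil => rfl
  | cons a l ih => rw [listCode, ih, pairCode_eq, hc]; rfl

theorem matrixCode_eq (M : Mat) : matrixCode M = enc M :=
  listCode_eq (fun l => listCode_eq (fun _ => rfl) l) M

theorem cliqueCode_eq : cliqueCode = (enc : Mat × ℕ → List Bool) := by
  funext I
  unfold cliqueCode
  rw [matrixCode_eq, pairCode_eq]
  rfl

theorem deletionCode_eq : deletionCode = (enc : Mat × ℕ × ℕ → List Bool) := by
  funext I
  unfold deletionCode
  rw [matrixCode_eq, pairCode_eq, pairCode_eq]
  rfl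

theorem main : ∃ R : List (List Bool) × ℕ → List (List Bool) × ℕ × ℕ,
    Nonempty (Turing.TM2ComputableInPolyTime cliqueCode deletionCode R) ∧
    ∀ I, 1 ≤ (R I).2.1 ∧ 1 ≤ (R I).2.2 ∧ (R I).2.1 ≤ 3 * I.2 ^ 2 + 1 ∧
      (IsYesClique I ↔ IsYesDeletion (R I)) := by
  refine ⟨redF, ?_, fun I => ⟨(redF_param I).1, (redF_param I).2.1, (redF_param I).2.2, redF_correct I⟩⟩
  rw [cliqueCode_eq, deletionCode_eq]
  exact pt_redF.tm2

end Pool.Agent.Helper84.FED
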