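import Mathlib

namespace Pool.Agent.Helper84.FED

/-- The entry of a 0/1 matrix (`false` outside the matrix). -/
def entry (M : List (List Bool)) (i j : ℕ) : Bool := (M.getD i []).getD j false

/-- The simple graph with adjacency matrix `M`; its vertices are the row indices of `M`. -/
def graphOf (M : List (List Bool)) : SimpleGraph (Fin M.length) where
  Adj i j := i ≠ j ∧ (entry M i j = true ∨ entry M j i = true)
  symm := ⟨fun _ _ h => ⟨h.1.symm, h.2.symm⟩⟩
  loopless := ⟨fun _ h => h.1 rfl⟩

/-- `k`-Clique: instance `(M, k)`. -/
def IsYesClique (I : List (List Bool) × ℕ) : Prop :=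
  ∃ s : Finset (Fin I.1.length), (graphOf I.1).IsNClique I.2 s

/-- Edge deletion to components of size at most `h`: instance `(M, k, h)`. -/
def IsYesDeletion (I : List (List Bool) × ℕ × ℕ) : Prop :=
  ∃ E' : Finset (Sym2 (Fin I.1.length)), (E' : Set (Sym2 (Fin I.1.length))) ⊆ (graphOf I.1).edgeSet ∧
    E'.card ≤ I.2.1 ∧
    ∀ c : ((graphOf I.1).deleteEdges (E' : Set (Sym2 (Fin I.1.length)))).ConnectedComponent,
      c.supp.ncard ≤ I.2.2

/-- Self-delimiting code of a pair of bit strings. -/
def pairCode : List Bool → List Bool → List Bool
  | [], v => false :: v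
  | b :: u, v => true :: b :: pairCode u v

/-- Code of a list, given a code of its elements. -/
def listCode {α : Type} (code : α → List Bool) : List α → List Bool
  | [] => []
  | a :: l => pairCode (code a) (listCode code l)

/-- Bit string encoding a 0/1 matrix row by row. -/
def matrixCode (M : List (List Bool)) : List Bool := listCode (listCode fun b => [b]) M

/-- Bit string encoding an instance `(M, k)`; numbers are written in binary. -/
def cliqueCode (I : List (List Bool) × ℕ) : List Bool := pairCode (matrixCode I.1) I.2.bits

/-- Bit string encoding an instance `(M, k, h)`; numbers are written in binary. -/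
def deletionCode (I : List (List Bool) × ℕ × ℕ) : List Bool :=
  pairCode (matrixCode I.1) (pairCode I.2.1.bits I.2.2.bits)

end Pool.Agent.Helper84.FED
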