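import Pool.Agent.Helper84.FED.Net

namespace Pool.Agent.Helper84.FED

open Net

section grid
variable (n k : ℕ) (adj : ℕ → ℕ → Bool)

/-- cyclic successor -/
def nx {k : ℕ} (j : Fin k) : Fin k := ⟨(j.val + 1) % k, Nat.mod_lt _ (lt_of_le_of_lt (Nat.zero_le _) j.2)⟩

theorem nx_val {k : ℕ} (j : Fin k) : (nx j).val = if j.val + 1 = k then 0 else j.val + 1 := by
  unfold nx
  split_ifs with h
  · show (j.val + 1) % k = 0
    rw [h, Nat.mod_self]
  · exact Nat.mod_eq_of_lt (by have := j.2; omega)

theorem nx_inj {k : ℕ} {i j : Fin k} (h : nx i = nx j) : i = j := by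
  have h1 := congrArg Fin.val h
  rw [nx_val, nx_val] at h1
  apply Fin.ext
  have := i.2
  have := j.2
  split_ifs at h1 <;> omega

theorem nx_surj {k : ℕ} (j : Fin k) : ∃ i, nx i = j :=
  (Finite.injective_iff_surjective.1 (fun _ _ h => nx_inj h)) j

/-- allowed positions -/
def alw (t : Fin 3) (i j p : ℕ) : Bool :=
  if t.val = 0 then decide (1 ≤ p) && decide (p ≤ n)
  else if t.val = 1 then decide (p % (n+1) = 0) && (decide (1 ≤ p / (n+1)) && decide (p / (n+1) ≤ n))
  else decide (p = 0) || (decide (1 ≤ p % (n+1)) && (decide (1 ≤ p / (n+1)) && (decide (p / (n+1) ≤ n) &&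
    (if i = j then decide (p % (n+1) = p / (n+1)) else adj (p % (n+1) - 1) (p / (n+1) - 1)))))

def gW : ℕ := (n+1) * (n+1)
def gh : ℕ := 4 * gW n + 3 * (k * k) + 3

def grid : Net (Bool × Fin k × Fin k) (Fin 3 × Fin k × Fin k) where
  src := fun e => (decide (e.1.val ≤ 1), e.2.1, e.2.2)
  tgt := fun e => if e.1.val = 0 then (false, e.2.1, nx e.2.2) else if e.1.val = 1 then (false, nx e.2.1, e.2.2)
    else (true, e.2.1, e.2.2)
  W := gW n
  al := fun e p => alw n adj e.1 e.2.1.val e.2.2.val p
  Lf := fun g => if g.1 = true then gh n k - 1 - 2 * gW n else gh n k - 1 - gW n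
  R := gh n k

theorem grid_good (hn : k ≤ n) : (grid n k adj).Good where
  hR := by
    show gW n ≤ gh n k
    unfold gh; omega
  hLf := by
    intro g
    show (if g.1 = true then gh n k - 1 - 2 * gW n else gh n k - 1 - gW n) < gh n k
    have : 3 ≤ gh n k := by unfold gh; omega
    split_ifs <;> omega
  hst := by
    rintro ⟨t, i, j⟩
    show (decide (t.val ≤ 1), i, j) ≠ (if t.val = 0 then (false, i, nx j) else if t.val = 1 then (false, nx i, j)
      else (true, i, j))
    split_ifs with h1 h2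
    · simp [h1]
    · simp [h2]
    · have : ¬ t.val ≤ 1 := by omega
      simp [this]
  hal := by
    rintro ⟨t, i, j⟩
    show ∃ p < gW n, alw n adj t i.val j.val p = true
    have hn1 : 1 ≤ n := le_trans (by have := i.2; omega) hn
    unfold gW
    by_cases h1 : t.val = 0
    · refine ⟨1, by nlinarith, ?_⟩
      simp [alw, h1, hn1]
    · by_cases h2 : t.val = 1
      · refine ⟨n+1, by nlinarith, ?_⟩
        simp [alw, h2, hn1]
      · refine ⟨0, by nlinarith, ?_⟩
        simp [alw, h1, h2]

theorem out_true (i j : Fin k) :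
    (Finset.univ.filter fun e : Fin 3 × Fin k × Fin k => (grid n k adj).src e = (true, i, j)) = {(0, i, j), (1, i, j)} := by
  ext ⟨t, a, b⟩
  simp only [grid, Finset.mem_filter, Finset.mem_univ, true_and, Prod.mk.injEq, decide_eq_true_eq, Finset.mem_insert, Finset.mem_singleton]
  constructor
  · rintro ⟨h1, rfl, rfl⟩
    rcases Nat.le_one_iff_eq_zero_or_eq_one.1 h1 with h | h
    · left; exact ⟨Fin.ext h, rfl, rfl⟩
    · right; exact ⟨Fin.ext h, rfl, rfl⟩
  · rintro (⟨rfl, rfl, rfl⟩ | ⟨rfl, rfl, rfl⟩) <;> simp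

theorem out_false (i j : Fin k) :
    (Finset.univ.filter fun e : Fin 3 × Fin k × Fin k => (grid n k adj).src e = (false, i, j)) = {(2, i, j)} := by
  ext ⟨t, a, b⟩
  simp only [grid, Finset.mem_filter, Finset.mem_univ, true_and, Prod.mk.injEq, decide_eq_false_iff_not, Finset.mem_singleton]
  constructor
  · rintro ⟨h1, rfl, rfl⟩
    exact ⟨Fin.ext (by have := t.2; show t.val = 2; omega), rfl, rfl⟩
  · rintro ⟨rfl, rfl, rfl⟩; simp

theorem in_true (i j : Fin k) :
    (Finset.univ.filter fun e : Fin 3 × Fin k × Fin k => (grid n k adj).tgt e = (true, i, j)) = {(2, i, j)} := by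
  ext ⟨t, a, b⟩
  simp only [grid, Finset.mem_filter, Finset.mem_univ, true_and, Prod.mk.injEq, Finset.mem_singleton]
  constructor
  · intro h
    split_ifs at h with h1 h2
    · simp at h
    · simp at h
    · simp only [Prod.mk.injEq, true_and] at h
      exact ⟨Fin.ext (by have := t.2; show t.val = 2; omega), h.1, h.2⟩
  · rintro ⟨rfl, rfl, rfl⟩; simp

theorem in_false (i j : Fin k) :
    (Finset.univ.filter fun e : Fin 3 × Fin k × Fin k => (grid n k adj).tgt e = (false, nx i, nx j)) =
      {(0, nx i, j), (1, i, nx j)} := by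
  ext ⟨t, a, b⟩
  simp only [grid, Finset.mem_filter, Finset.mem_univ, true_and, Prod.mk.injEq, Finset.mem_insert, Finset.mem_singleton]
  constructor
  · intro h
    split_ifs at h with h1 h2
    · simp only [Prod.mk.injEq, true_and] at h
      exact Or.inl ⟨Fin.ext h1, h.1, nx_inj h.2⟩
    · simp only [Prod.mk.injEq, true_and] at h
      exact Or.inr ⟨Fin.ext h2, nx_inj h.1, h.2⟩
    · simp at h
  · rintro (⟨rfl, rfl, rfl⟩ | ⟨rfl, rfl, rfl⟩) <;> simp

theorem grid_hh (g : Bool × Fin k × Fin k) :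
    1 + (grid n k adj).Lf g + (Finset.univ.filter fun e => (grid n k adj).src e = g).card * (grid n k adj).W = gh n k := by
  obtain ⟨b, i, j⟩ := g
  have h1 : 2 * gW n + 1 ≤ gh n k := by unfold gh; omega
  cases b with
  | true =>
    rw [out_true, Finset.card_pair (by simp)]
    show 1 + (gh n k - 1 - 2 * gW n) + 2 * gW n = gh n k
    omega
  | false =>
    rw [out_false, Finset.card_singleton]
    show 1 + (gh n k - 1 - gW n) + 1 * gW n = gh n k
    omega

theorem grid_hbig (g g' : Bool × Fin k × Fin k) :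
    gh n k + Fintype.card (Fin 3 × Fin k × Fin k) < (grid n k adj).Lf g + (grid n k adj).Lf g' := by
  have h1 : ∀ g, gh n k - 1 - 2 * gW n ≤ (grid n k adj).Lf g := by
    rintro ⟨b, i, j⟩
    show gh n k - 1 - 2 * gW n ≤ (if b = true then gh n k - 1 - 2 * gW n else gh n k - 1 - gW n)
    split_ifs <;> omega
  have h2 := h1 g
  have h3 := h1 g'
  have h4 : Fintype.card (Fin 3 × Fin k × Fin k) = 3 * (k * k) := by simp
  rw [h4]
  have h5 : gh n k = 4 * gW n + 3 * (k * k) + 3 := rfl
  omega

theorem grid_card : Fintype.card (Fin 3 × Fin k × Fin k) = 3 * (k * k) := by simp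

variable {n k adj}

theorem alw0 {i j p : ℕ} : alw n adj 0 i j p = true ↔ 1 ≤ p ∧ p ≤ n := by
  simp [alw]

theorem alw1 {i j p : ℕ} : alw n adj 1 i j p = true ↔ p % (n+1) = 0 ∧ 1 ≤ p / (n+1) ∧ p / (n+1) ≤ n := by
  have : ¬ ((1 : Fin 3).val = 0) := by decide
  have h1 : (1 : Fin 3).val = 1 := rfl
  unfold alw
  rw [if_neg this, if_pos h1]
  simp only [Bool.and_eq_true, decide_eq_true_eq]

theorem alw2 {i j p : ℕ} : alw n adj 2 i j p = true ↔ p = 0 ∨ (1 ≤ p % (n+1) ∧ 1 ≤ p / (n+1) ∧ p / (n+1) ≤ n ∧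
    (if i = j then p % (n+1) = p / (n+1) else adj (p % (n+1) - 1) (p / (n+1) - 1) = true)) := by
  have h0 : ¬ ((2 : Fin 3).val = 0) := by decide
  have h1 : ¬ ((2 : Fin 3).val = 1) := by decide
  unfold alw
  rw [if_neg h0, if_neg h1]
  by_cases h : i = j
  · simp [h]
  · simp [h]

/-- From a circulation to a clique. -/
theorem circ_clique {x : Fin 3 × Fin k × Fin k → ℕ}
    (hx : ∀ e, x e = gW n ∨ (x e < gW n ∧ alw n adj e.1 e.2.1.val e.2.2.val (x e) = true))
    (hc : ∀ g, ∑ e with (grid n k adj).tgt e = g, x e = ∑ e with (grid n k adj).src e = g, x e) :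
    ∃ f : Fin k → ℕ, (∀ i, f i < n) ∧ ∀ i j, i ≠ j → adj (f i) (f j) = true := by
  have hB : 0 < n + 1 := Nat.succ_pos n
  have hWpos : 1 ≤ gW n := by unfold gW; nlinarith
  -- conservation
  have c1 : ∀ i j, x (2, i, j) = x (0, i, j) + x (1, i, j) := by
    intro i j
    have := hc (true, i, j)
    rw [in_true, out_true, Finset.sum_singleton, Finset.sum_pair (by simp)] at this
    exact this
  have c2 : ∀ i j, x (0, nx i, j) + x (1, i, nx j) = x (2, nx i, nx j) := by
    intro i j
    have := hc (false, nx i, nx j)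
    rw [in_false, out_false, Finset.sum_singleton, Finset.sum_pair (by simp)] at this
    exact this
  have hle : ∀ e, x e ≤ gW n := by intro e; rcases hx e with h | h <;> omega
  have pos0 : ∀ i j, 1 ≤ x (0, i, j) := by
    intro i j
    rcases hx (0, i, j) with h | h
    · omega
    · exact (alw0.1 h.2).1
  have pos1 : ∀ i j, 1 ≤ x (1, i, j) := by
    intro i j
    rcases hx (1, i, j) with h | h
    · omega
    · have h1 := alw1.1 h.2
      have h2 := Nat.div_mul_le_self (x (1, i, j)) (n+1)
      nlinarith [h1.2.1]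
  have r0 : ∀ i j, 1 ≤ x (0, i, j) ∧ x (0, i, j) ≤ n := by
    intro i j
    rcases hx (0, i, j) with h | h
    · have := c1 i j
      have := pos1 i j
      have := hle (2, i, j)
      omega
    · exact alw0.1 h.2
  have r1 : ∀ i j, x (1, i, j) % (n+1) = 0 ∧ 1 ≤ x (1, i, j) / (n+1) ∧ x (1, i, j) / (n+1) ≤ n := by
    intro i j
    rcases hx (1, i, j) with h | h
    · have := c1 i j
      have := pos0 i j
      have := hle (2, i, j)
      omega
    · exact alw1.1 h.2
  -- write x (1, i, j) = (n+1) * y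
  have r1' : ∀ i j, x (1, i, j) = (n+1) * (x (1, i, j) / (n+1)) := by
    intro i j
    have := Nat.div_add_mod (x (1, i, j)) (n+1)
    rw [(r1 i j).1, add_zero] at this
    exact this.symm
  have dig : ∀ a b : ℕ, a ≤ n → (a + (n+1) * b) % (n+1) = a ∧ (a + (n+1) * b) / (n+1) = b := by
    intro a b ha
    constructor
    · rw [Nat.add_mul_mod_self_left, Nat.mod_eq_of_lt (by omega)]
    · rw [Nat.add_mul_div_left _ _ hB, Nat.div_eq_of_lt (by omega), zero_add]
  have m1 : ∀ i j, x (2, i, j) % (n+1) = x (0, i, j) ∧ x (2, i, j) / (n+1) = x (1, i, j) / (n+1) := by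
    intro i j
    rw [c1 i j]
    have h1 := dig (x (0, i, j)) (x (1, i, j) / (n+1)) (r0 i j).2
    rw [← r1' i j] at h1
    exact h1
  have m2 : ∀ i j, x (2, nx i, nx j) % (n+1) = x (0, nx i, j) ∧ x (2, nx i, nx j) / (n+1) = x (1, i, nx j) / (n+1) := by
    intro i j
    rw [← c2 i j]
    have h1 := dig (x (0, nx i, j)) (x (1, i, nx j) / (n+1)) (r0 (nx i) j).2
    rw [← r1' i (nx j)] at h1
    exact h1
  have e0 : ∀ i j, x (0, i, nx j) = x (0, i, j) := by
    intro i j
    obtain ⟨i', rfl⟩ := nx_surj i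
    rw [← (m1 (nx i') (nx j)).1, (m2 i' j).1]
  have e1 : ∀ i j, x (1, nx i, j) / (n+1) = x (1, i, j) / (n+1) := by
    intro i j
    obtain ⟨j', rfl⟩ := nx_surj j
    rw [← (m1 (nx i) (nx j')).2, (m2 i j').2]
  -- constancy
  have hconst : ∀ (F : Fin k → ℕ), (∀ j, F (nx j) = F j) → ∀ i j, F i = F j := by
    intro F hF
    have h0 : ∀ (m : ℕ) (hm : m < k) (h0 : 0 < k), F ⟨m, hm⟩ = F ⟨0, h0⟩ := by
      intro m
      induction m with
      | zero => intro hm h0; rfl
      | succ m ih =>
        intro hm h0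
        have h1 := hF ⟨m, by omega⟩
        have h2 : nx (⟨m, by omega⟩ : Fin k) = ⟨m+1, hm⟩ := by
          apply Fin.ext
          rw [nx_val]
          show (if m + 1 = k then 0 else m + 1) = m + 1
          rw [if_neg (by omega)]
        rw [h2] at h1
        rw [h1]
        exact ih (by omega) h0
    intro i j
    have hk : 0 < k := lt_of_le_of_lt (Nat.zero_le _) i.2
    have h1 := h0 i.val i.2 hk
    have h2 := h0 j.val j.2 hk
    exact h1.trans h2.symm
  have k0 : ∀ i j j', x (0, i, j) = x (0, i, j') := fun i j j' => hconst (fun j => x (0, i, j)) (fun j => e0 i j) j j'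
  have k1 : ∀ i i' j, x (1, i, j) / (n+1) = x (1, i', j) / (n+1) :=
    fun i i' j => hconst (fun i => x (1, i, j) / (n+1)) (fun i => e1 i j) i i'
  -- middle arcs
  have hm : ∀ i j, (if i.val = j.val then x (0, i, j) = x (1, i, j) / (n+1) else
      adj (x (0, i, j) - 1) (x (1, i, j) / (n+1) - 1) = true) := by
    intro i j
    have hlt : x (2, i, j) < gW n := by
      rw [c1 i j, r1' i j]
      have h1 := (r0 i j).2
      have h2 := (r1 i j).2.2
      unfold gW
      nlinarith
    rcases hx (2, i, j) with h | h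
    · omega
    · rcases alw2.1 h.2 with h1 | h1
      · have h1' : x (2, i, j) = 0 := h1
        have := c1 i j
        have := pos0 i j
        omega
      · have h2 := h1.2.2.2
        have h3 := m1 i j
        have h4 : (if i.val = j.val then x (2, i, j) % (n+1) = x (2, i, j) / (n+1) else
          adj (x (2, i, j) % (n+1) - 1) (x (2, i, j) / (n+1) - 1) = true) := h2
        rw [h3.1, h3.2] at h4
        exact h4
  refine ⟨fun i => x (0, i, i) - 1, ?_, ?_⟩
  · intro i
    have := r0 i i
    show x (0, i, i) - 1 < n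
    omega
  · intro i j hij
    have h1 := hm i j
    have h2 := hm j j
    rw [if_pos rfl] at h2
    rw [if_neg (fun h => hij (Fin.ext h))] at h1
    rw [k0 i j i, k1 i j j, ← h2] at h1
    exact h1

/-- From a clique to a circulation. -/
theorem clique_circ {f : Fin k → ℕ} (hf : ∀ i, f i < n) (hadj : ∀ i j, i ≠ j → adj (f i) (f j) = true) :
    ∃ x : Fin 3 × Fin k × Fin k → ℕ,
      (∀ e, x e = gW n ∨ (x e < gW n ∧ alw n adj e.1 e.2.1.val e.2.2.val (x e) = true)) ∧
      (∀ g, ∑ e with (grid n k adj).tgt e = g, x e = ∑ e with (grid n k adj).src e = g, x e) := by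
  have hB : 0 < n + 1 := Nat.succ_pos n
  let x : Fin 3 × Fin k × Fin k → ℕ := fun e =>
    if e.1 = 0 then f e.2.1 + 1 else if e.1 = 1 then (n+1) * (f e.2.2 + 1) else
      f e.2.1 + 1 + (n+1) * (f e.2.2 + 1)
  have x0 : ∀ i j, x (0, i, j) = f i + 1 := fun i j => rfl
  have x1 : ∀ i j, x (1, i, j) = (n+1) * (f j + 1) := fun i j => rfl
  have x2 : ∀ i j, x (2, i, j) = f i + 1 + (n+1) * (f j + 1) := fun i j => rfl
  refine ⟨x, ?_, ?_⟩
  · rintro ⟨t, i, j⟩
    right
    have hi := hf i
    have hj := hf j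
    have ht : t = 0 ∨ t = 1 ∨ t = 2 := by fin_cases t <;> simp
    rcases ht with rfl | rfl | rfl
    · refine ⟨?_, ?_⟩
      · rw [x0]; unfold gW; nlinarith
      · show alw n adj 0 i.val j.val (x (0, i, j)) = true
        rw [alw0, x0]; omega
    · refine ⟨?_, ?_⟩
      · rw [x1]; unfold gW; nlinarith
      · show alw n adj 1 i.val j.val (x (1, i, j)) = true
        rw [alw1, x1, Nat.mul_mod_right, Nat.mul_div_cancel_left _ hB]
        omega
    · refine ⟨?_, ?_⟩
      · rw [x2]; unfold gW; nlinarith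
      · show alw n adj 2 i.val j.val (x (2, i, j)) = true
        rw [alw2, x2, Nat.add_mul_mod_self_left, Nat.mod_eq_of_lt (by omega), Nat.add_mul_div_left _ _ hB,
          Nat.div_eq_of_lt (by omega), zero_add]
        right
        refine ⟨by omega, by omega, by omega, ?_⟩
        by_cases hij : i.val = j.val
        · rw [if_pos hij, Fin.ext hij]
        · rw [if_neg hij]
          simp only [Nat.add_sub_cancel]
          exact hadj i j (fun h => hij (congrArg Fin.val h))
  · rintro ⟨b, i, j⟩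
    cases b with
    | true =>
      rw [in_true, out_true, Finset.sum_singleton, Finset.sum_pair (by simp), x0, x1, x2]
    | false =>
      obtain ⟨i', rfl⟩ := nx_surj i
      obtain ⟨j', rfl⟩ := nx_surj j
      rw [in_false, out_false, Finset.sum_singleton, Finset.sum_pair (by simp), x0, x1, x2]

end grid

end Pool.Agent.Helper84.FED
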