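import Mathlib

namespace Pool.Agent.Helper84.FED

/-- The last allowed position below `q`, plus one (0 if there is none). -/
def last (al : ℕ → Bool) : ℕ → ℕ
  | 0 => 0
  | q + 1 => if al q then q + 1 else last al q

theorem last_le (al : ℕ → Bool) (q : ℕ) : last al q ≤ q := by
  induction q with
  | zero => exact le_rfl
  | succ q ih =>
    unfold last
    split_ifs
    · exact le_rfl
    · omega

theorem last_spec {al : ℕ → Bool} {q l : ℕ} (h : last al q = l + 1) : al l = true ∧ l < q := by
  induction q with
  | zero => simp [last] at h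
  | succ q ih =>
    unfold last at h
    split_ifs at h with h1
    · have : l = q := by omega
      subst this
      exact ⟨h1, by omega⟩
    · have := ih h
      exact ⟨this.1, by omega⟩

theorem le_last {al : ℕ → Bool} {p q : ℕ} (hp : al p = true) (h : p < q) : p + 1 ≤ last al q := by
  induction q with
  | zero => omega
  | succ q ih =>
    unfold last
    split_ifs with h1
    · omega
    · rcases Nat.lt_succ_iff_lt_or_eq.1 h with h2 | h2
      · exact ih h2
      · subst h2; exact absurd hp h1

structure Net (Hub Arc : Type) where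
  src : Arc → Hub
  tgt : Arc → Hub
  W : ℕ
  al : Arc → ℕ → Bool
  Lf : Hub → ℕ
  R : ℕ

namespace Net

variable {Hub Arc : Type} (N : Net Hub Arc)

abbrev V := (Hub ⊕ Arc) × Fin N.R

/-- The directed (child, parent) relation. -/
def E (x y : N.V) : Prop :=
  match x.1, y.1 with
  | .inl g, .inl g' => g = g' ∧ 1 ≤ x.2.val ∧ x.2.val ≤ N.Lf g ∧ y.2.val = 0
  | .inl g, .inr e => x.2.val = 0 ∧ N.src e = g ∧ y.2.val < N.W ∧ last (N.al e) N.W = y.2.val + 1
  | .inr e, .inl g => x.2.val < N.W ∧ y.2.val = 0 ∧ N.tgt e = g ∧ last (N.al e) x.2.val = 0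
  | .inr e, .inr e' => e = e' ∧ x.2.val < N.W ∧ last (N.al e) x.2.val = y.2.val + 1

def G : SimpleGraph N.V := SimpleGraph.fromRel N.E

structure Good : Prop where
  hR : N.W ≤ N.R
  hLf : ∀ g, N.Lf g < N.R
  hst : ∀ e, N.src e ≠ N.tgt e
  hal : ∀ e, ∃ p < N.W, N.al e p = true

variable {N} (hN : N.Good)
include hN

/-- centre of a hub -/
def cen (g : Hub) : N.V := (.inl g, ⟨0, lt_of_le_of_lt (Nat.zero_le _) (hN.hLf g)⟩)

/-- unit of an arc -/
def un (e : Arc) (q : ℕ) (hq : q < N.W) : N.V := (.inr e, ⟨q, lt_of_lt_of_le hq hN.hR⟩)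

theorem last_lt {e : Arc} {q : ℕ} (hq : q ≤ N.W) (h : last (N.al e) q ≠ 0) : last (N.al e) q - 1 < N.W := by
  have := last_le (N.al e) q
  omega

/-- parent of position `q ≤ W` of arc `e` -/
def par (e : Arc) (q : ℕ) (hq : q ≤ N.W) : N.V :=
  if h : last (N.al e) q = 0 then cen hN (N.tgt e) else un hN e (last (N.al e) q - 1) (last_lt hN hq h)

/-- child of position `q ≤ W` of arc `e` -/
def chi (e : Arc) (q : ℕ) (hq : q ≤ N.W) : N.V :=
  if h : q < N.W then un hN e q h else cen hN (N.src e)

theorem last_W_ne (e : Arc) : last (N.al e) N.W ≠ 0 := by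
  obtain ⟨p, hp, hp'⟩ := hN.hal e
  have := le_last hp' hp
  omega

theorem E_chi_par (e : Arc) (q : ℕ) (hq : q ≤ N.W) : N.E (chi hN e q hq) (par hN e q hq) := by
  unfold chi par
  by_cases h1 : q < N.W
  · by_cases h2 : last (N.al e) q = 0
    · rw [dif_pos h1, dif_pos h2]
      exact ⟨h1, rfl, rfl, h2⟩
    · rw [dif_pos h1, dif_neg h2]
      refine ⟨rfl, h1, ?_⟩
      show _ = last (N.al e) q - 1 + 1
      show last (N.al e) q = last (N.al e) q - 1 + 1
      omega
  · have h3 : q = N.W := by omega
    subst h3
    have h2 := last_W_ne hN e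
    rw [dif_neg h1, dif_neg h2]
    refine ⟨rfl, rfl, last_lt hN le_rfl h2, ?_⟩
    show _ = last (N.al e) N.W - 1 + 1
    omega

theorem ne_of_E {x y : N.V} (h : N.E x y) : x ≠ y := by
  rintro rfl
  obtain ⟨a, r⟩ := x
  cases a with
  | inl g =>
    simp only [E] at h
    omega
  | inr e =>
    simp only [E] at h
    have := last_le (N.al e) r.val
    omega

theorem adj_of_E {x y : N.V} (h : N.E x y) : N.G.Adj x y := by
  unfold G
  rw [SimpleGraph.fromRel_adj]
  exact ⟨ne_of_E hN h, Or.inl h⟩

/-- The edge with label `(e, q)`. -/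
def lab (e : Arc) (q : ℕ) (hq : q ≤ N.W) : Sym2 N.V := s(chi hN e q hq, par hN e q hq)

/-- Every related pair is a leaf edge or has a label. -/
theorem E_cases {x y : N.V} (h : N.E x y) :
    (∃ g, x.1 = .inl g ∧ 1 ≤ x.2.val ∧ x.2.val ≤ N.Lf g ∧ y = cen hN g) ∨
    (∃ e q hq, x = chi hN e q hq ∧ y = par hN e q hq) := by
  obtain ⟨a, r⟩ := x
  obtain ⟨b, s⟩ := y
  cases a with
  | inl g =>
    cases b with
    | inl g' =>
      simp only [E] at h
      obtain ⟨rfl, h1, h2, h3⟩ := h
      left
      exact ⟨g, rfl, h1, h2, by unfold cen; congr 1; exact Fin.ext h3⟩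
    | inr e =>
      simp only [E] at h
      obtain ⟨h1, h2, h3, h4⟩ := h
      right
      refine ⟨e, N.W, le_rfl, ?_, ?_⟩
      · unfold chi
        rw [dif_neg (lt_irrefl _)]
        unfold cen
        rw [h2]; congr 1; exact Fin.ext h1
      · unfold par
        rw [dif_neg (by omega)]
        unfold un
        congr 1
        apply Fin.ext
        show s.val = last (N.al e) N.W - 1
        omega
  | inr e =>
    cases b with
    | inl g =>
      simp only [E] at h
      obtain ⟨h1, h2, h3, h4⟩ := h
      right
      refine ⟨e, r.val, h1.le, ?_, ?_⟩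
      · unfold chi
        rw [dif_pos h1]; rfl
      · unfold par
        rw [dif_pos h4]
        unfold cen
        rw [h3]; congr 1; exact Fin.ext h2
    | inr e' =>
      simp only [E] at h
      obtain ⟨rfl, h1, h2⟩ := h
      right
      refine ⟨e, r.val, h1.le, ?_, ?_⟩
      · unfold chi
        rw [dif_pos h1]; rfl
      · unfold par
        rw [dif_neg (by omega)]
        unfold un
        congr 1
        apply Fin.ext
        show s.val = last (N.al e) r.val - 1
        omega

/-- `e` is the arc of a spine edge: the edge contains a unit of `e` and only units of `e` -/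
theorem lab_unit (e : Arc) (q : ℕ) (hq : q ≤ N.W) : ∃ p hp, un hN e p hp ∈ lab hN e q hq := by
  by_cases h : q < N.W
  · refine ⟨q, h, ?_⟩
    unfold lab chi
    rw [dif_pos h]
    exact Sym2.mem_mk_left _ _
  · have h3 : q = N.W := by omega
    subst h3
    refine ⟨_, last_lt hN le_rfl (last_W_ne hN e), ?_⟩
    unfold lab par
    rw [dif_neg (last_W_ne hN e)]
    exact Sym2.mem_mk_right _ _

theorem lab_unit' {e e' : Arc} {q p : ℕ} {hq : q ≤ N.W} {hp : p < N.W} (h : un hN e' p hp ∈ lab hN e q hq) : e' = e := by
  unfold lab at h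
  rw [Sym2.mem_iff] at h
  rcases h with h | h
  · unfold chi at h
    split_ifs at h
    · exact Sum.inr_injective (congrArg Prod.fst h)
    · exact absurd (congrArg Prod.fst h) (by simp [un, cen])
  · unfold par at h
    split_ifs at h
    · exact absurd (congrArg Prod.fst h) (by simp [un, cen])
    · exact Sum.inr_injective (congrArg Prod.fst h)

theorem lab_arc {e e' : Arc} {q q' : ℕ} {hq : q ≤ N.W} {hq' : q' ≤ N.W} (h : lab hN e q hq = lab hN e' q' hq') : e = e' := by
  obtain ⟨p, hp, hmem⟩ := lab_unit hN e q hq
  rw [h] at hmem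
  exact lab_unit' hN hmem

/-- position of the vertices in a labelled edge -/
theorem lab_pos {e : Arc} {q q' : ℕ} {hq : q ≤ N.W} {hq' : q' ≤ N.W} (h : lab hN e q hq = lab hN e q' hq') : q = q' := by
  -- wlog q < q'
  by_contra hne
  have key : ∀ a b (ha : a ≤ N.W) (hb : b ≤ N.W), a < b → lab hN e a ha ≠ lab hN e b hb := by
    intro a b ha hb hab h
    have ha' : a < N.W := by omega
    unfold lab at h
    rw [Sym2.eq_iff] at h
    rcases h with ⟨h1, h2⟩ | ⟨h1, h2⟩
    · unfold chi at h1
      rw [dif_pos ha'] at h1
      split_ifs at h1 with h3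
      · have := congrArg (fun v => v.2.val) h1
        simp only [un] at this
        omega
      · exact absurd (congrArg Prod.fst h1) (by simp [un, cen])
    · -- chi a = par b, par a = chi b
      unfold chi par at h2
      split_ifs at h2 with h3 h4 h5
      · exact absurd (congrArg Prod.fst h2) (by simp [un, cen])
      · have := congrArg Prod.fst h2
        simp only [cen] at this
        exact hN.hst e (Sum.inl_injective this).symm
      · have := congrArg (fun v => v.2.val) h2
        simp only [un] at this
        have h6 := last_le (N.al e) a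
        omega
      · exact absurd (congrArg Prod.fst h2) (by simp [un, cen])
  rcases lt_or_gt_of_ne hne with h' | h'
  · exact key _ _ _ _ h' h
  · exact key _ _ _ _ h' h.symm

/-- leaf edges are not labelled edges -/
theorem leaf_not_lab {x : N.V} {g g' : Hub} (hx : x.1 = .inl g) {e : Arc} {q : ℕ} {hq : q ≤ N.W} :
    s(x, cen hN g') ≠ lab hN e q hq := by
  intro h
  obtain ⟨p, hp, hmem⟩ := lab_unit hN e q hq
  rw [← h, Sym2.mem_iff] at hmem
  rcases hmem with h1 | h1
  · rw [← h1] at hx
    exact absurd hx (by simp [un])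
  · exact absurd (congrArg Prod.fst h1) (by simp [un, cen])


theorem par_zero (e : Arc) : par hN e 0 (Nat.zero_le _) = cen hN (N.tgt e) := by
  unfold par
  have : last (N.al e) 0 = 0 := rfl
  rw [dif_pos this]

theorem par_succ_of_al {e : Arc} {q : ℕ} (h : N.al e q = true) (hq : q < N.W) :
    par hN e (q+1) hq = un hN e q hq := by
  have h1 : last (N.al e) (q+1) = q + 1 := by simp [last, h]
  unfold par
  rw [dif_neg (by omega)]
  unfold un
  congr 1
  apply Fin.ext
  show last (N.al e) (q+1) - 1 = q
  omega

theorem par_succ_of_not {e : Arc} {q : ℕ} (h : ¬ N.al e q = true) (hq : q < N.W) :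
    par hN e (q+1) hq = par hN e q hq.le := by
  have h1 : last (N.al e) (q+1) = last (N.al e) q := by simp [last, h]
  unfold par
  by_cases h2 : last (N.al e) q = 0
  · rw [dif_pos h2, dif_pos (by omega)]
  · rw [dif_neg h2, dif_neg (by omega)]
    unfold un
    congr 1
    apply Fin.ext
    show last (N.al e) (q+1) - 1 = last (N.al e) q - 1
    omega

theorem chi_lt {e : Arc} {q : ℕ} (hq : q < N.W) : chi hN e q hq.le = un hN e q hq := by
  unfold chi; rw [dif_pos hq]

theorem chi_W (e : Arc) : chi hN e N.W le_rfl = cen hN (N.src e) := by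
  unfold chi; rw [dif_neg (lt_irrefl _)]

omit hN in
theorem card_Ico_fin {R a b : ℕ} (hb : b ≤ R) :
    (Finset.univ.filter fun r : Fin R => a ≤ r.val ∧ r.val < b).card = b - a := by
  rw [← Nat.card_Ico]
  apply Finset.card_bij (fun (r : Fin R) _ => r.val)
  · intro r hr
    simp only [Finset.mem_filter, Finset.mem_univ, true_and] at hr
    exact Finset.mem_Ico.2 hr
  · intro r _ s _ h
    exact Fin.ext h
  · intro c hc
    rw [Finset.mem_Ico] at hc
    exact ⟨⟨c, by omega⟩, by simpa using hc, rfl⟩

section main
variable [Fintype Hub] [DecidableEq Hub] [Fintype Arc] [DecidableEq Arc]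

omit hN [Fintype Hub] [Fintype Arc] [DecidableEq Hub] [DecidableEq Arc] in
/-- The class of the hub `g` for the flow `x`. -/
def InCls (x : Arc → ℕ) (g : Hub) (v : N.V) : Prop :=
  match v.1 with
    | .inl g' => g' = g ∧ v.2.val ≤ N.Lf g
    | .inr e => (v.2.val < x e ∧ v.2.val < N.W ∧ N.tgt e = g) ∨
        (x e ≤ v.2.val ∧ v.2.val < N.W ∧ N.src e = g)

omit hN [Fintype Hub] [Fintype Arc] [DecidableEq Arc] in
instance (x : Arc → ℕ) (g : Hub) : DecidablePred (InCls (N := N) x g) := fun v => by
  unfold InCls
  split <;> infer_instance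

/-- The class of the hub `g` for the flow `x`. -/
def cls (x : Arc → ℕ) (g : Hub) : Finset N.V := Finset.univ.filter (InCls (N := N) x g)

theorem mem_cls_inl {x : Arc → ℕ} {g g' : Hub} {r : Fin N.R} :
    ((.inl g', r) : N.V) ∈ cls (N := N) x g ↔ g' = g ∧ r.val ≤ N.Lf g := by
  simp [cls, InCls]

theorem mem_cls_inr {x : Arc → ℕ} {g : Hub} {e : Arc} {r : Fin N.R} :
    ((.inr e, r) : N.V) ∈ cls (N := N) x g ↔ (r.val < x e ∧ r.val < N.W ∧ N.tgt e = g) ∨
        (x e ≤ r.val ∧ r.val < N.W ∧ N.src e = g) := by
  simp [cls, InCls]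

theorem card_cls (x : Arc → ℕ) (hx : ∀ e, x e ≤ N.W) (g : Hub) :
    (cls (N := N) x g).card = 1 + N.Lf g + ∑ e with N.tgt e = g, x e + ∑ e with N.src e = g, (N.W - x e) := by
  unfold cls
  rw [Finset.card_filter, Fintype.sum_prod_type, Fintype.sum_sum_type]
  have h1 : ∀ g' : Hub, (∑ r : Fin N.R, if (g' = g ∧ r.val ≤ N.Lf g) then 1 else 0) =
      if g' = g then 1 + N.Lf g else 0 := by
    intro g'
    by_cases h : g' = g
    · simp only [h, true_and, if_true]
      rw [← Finset.card_filter]
      have := card_Ico_fin (R := N.R) (a := 0) (b := N.Lf g + 1) (hN.hLf g)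
      simp only [Nat.zero_le, true_and, Nat.lt_succ_iff, Nat.sub_zero] at this
      rw [this]; ring
    · simp [h]
  have h2 : ∀ e : Arc, (∑ r : Fin N.R, if ((r.val < x e ∧ r.val < N.W ∧ N.tgt e = g) ∨
        (x e ≤ r.val ∧ r.val < N.W ∧ N.src e = g)) then 1 else 0) =
      (if N.tgt e = g then x e else 0) + (if N.src e = g then N.W - x e else 0) := by
    intro e
    rw [← Finset.card_filter]
    have hR := hN.hR
    by_cases h3 : N.tgt e = g
    · have h4 : N.src e ≠ g := by rw [← h3]; exact hN.hst e
      have := card_Ico_fin (R := N.R) (a := 0) (b := x e) ((hx e).trans hR)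
      simp only [Nat.zero_le, true_and, Nat.sub_zero] at this
      rw [if_pos h3, if_neg h4, add_zero, ← this]
      congr 1
      ext r
      have := hx e
      simp only [h3, h4, Finset.mem_filter, Finset.mem_univ, true_and, and_true, and_false, or_false]
      omega
    · by_cases h4 : N.src e = g
      · have := card_Ico_fin (R := N.R) (a := x e) (b := N.W) hR
        rw [if_neg h3, if_pos h4, zero_add, ← this]
        congr 1
        ext r
        simp [h3, h4]
      · rw [if_neg h3, if_neg h4]
        simp [h3, h4]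
  calc _ = ∑ g' : Hub, (if g' = g then 1 + N.Lf g else 0) +
        ∑ e : Arc, ((if N.tgt e = g then x e else 0) + (if N.src e = g then N.W - x e else 0)) := by
          congr 1
          · exact Finset.sum_congr rfl fun g' _ => h1 g'
          · exact Finset.sum_congr rfl fun e _ => h2 e
    _ = _ := by
          rw [Finset.sum_add_distrib, Finset.sum_ite_eq' , if_pos (Finset.mem_univ _), Finset.sum_filter, Finset.sum_filter]
          ring

/-- leaves of a hub -/
def leaves (g : Hub) : Finset N.V :=
  Finset.univ.filter fun v => v.1 = .inl g ∧ 1 ≤ v.2.val ∧ v.2.val < N.Lf g + 1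

theorem card_leaves (g : Hub) : (leaves (N := N) g).card = N.Lf g := by
  have h0 := card_Ico_fin (R := N.R) (a := 1) (b := N.Lf g + 1) (hN.hLf g)
  have h1 : (leaves (N := N) g).card = (Finset.univ.filter fun r : Fin N.R => 1 ≤ r.val ∧ r.val < N.Lf g + 1).card := by
    symm
    apply Finset.card_bij (fun (r : Fin N.R) _ => ((.inl g, r) : N.V))
    · intro r hr
      simp only [Finset.mem_filter, Finset.mem_univ, true_and] at hr
      simp only [leaves, Finset.mem_filter, Finset.mem_univ, true_and]
      exact hr
    · intro r _ s _ h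
      exact congrArg Prod.snd h
    · rintro ⟨a, r⟩ hr
      simp only [leaves, Finset.mem_filter, Finset.mem_univ, true_and] at hr
      obtain ⟨rfl, hr⟩ := hr
      exact ⟨r, by simpa using hr, rfl⟩
  rw [h1, h0]; omega


variable (h : ℕ)

/-- Forward direction: a deletion set gives a circulation. -/
theorem forward (hh : ∀ g, 1 + N.Lf g + (Finset.univ.filter fun e => N.src e = g).card * N.W = h)
    (hbig : ∀ g g', h + Fintype.card Arc < N.Lf g + N.Lf g')
    (E' : Finset (Sym2 N.V)) (hcard : E'.card ≤ Fintype.card Arc)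
    (hc : ∀ v, {w | (N.G.deleteEdges (E' : Set (Sym2 N.V))).Reachable v w}.ncard ≤ h) :
    ∃ x : Arc → ℕ, (∀ e, x e = N.W ∨ (x e < N.W ∧ N.al e (x e) = true)) ∧
      ∀ g, ∑ e with N.tgt e = g, x e = ∑ e with N.src e = g, x e := by
  classical
  set G' := N.G.deleteEdges (E' : Set (Sym2 N.V)) with hG'
  have adjG' : ∀ {x y : N.V}, N.E x y → s(x, y) ∉ E' → G'.Adj x y := by
    intro x y h1 h2
    rw [hG', SimpleGraph.deleteEdges_adj]
    exact ⟨adj_of_E hN h1, by simpa using h2⟩
  -- Step A
  have hA : ∀ g g', g ≠ g' → ¬ G'.Reachable (cen hN g) (cen hN g') := by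
    intro g g' hgg hr
    let T : Finset N.V := leaves (N := N) g ∪ leaves (N := N) g'
    have hdisj : Disjoint (leaves (N := N) g) (leaves (N := N) g') := by
      rw [Finset.disjoint_left]
      intro v h1 h2
      simp only [leaves, Finset.mem_filter, Finset.mem_univ, true_and] at h1 h2
      exact hgg (Sum.inl_injective (h1.1.symm.trans h2.1))
    have hT : T.card = N.Lf g + N.Lf g' := by
      rw [Finset.card_union_of_disjoint hdisj, card_leaves hN, card_leaves hN]
    have hR0 : 0 < N.R := lt_of_le_of_lt (Nat.zero_le _) (hN.hLf g)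
    let φ : N.V → Sym2 N.V := fun v => s(v, (v.1, ⟨0, hR0⟩))
    have hTφ : ∀ v ∈ T, ∃ g0, (g0 = g ∨ g0 = g') ∧ v.1 = .inl g0 ∧ 1 ≤ v.2.val ∧ v.2.val ≤ N.Lf g0 ∧
        φ v = s(v, cen hN g0) := by
      intro v hv
      simp only [T, leaves, Finset.mem_union, Finset.mem_filter, Finset.mem_univ, true_and] at hv
      rcases hv with h1 | h1
      · refine ⟨g, Or.inl rfl, h1.1, h1.2.1, by omega, ?_⟩
        simp only [φ, cen, h1.1]
      · refine ⟨g', Or.inr rfl, h1.1, h1.2.1, by omega, ?_⟩
        simp only [φ, cen, h1.1]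
    have hBad : (T.filter fun v => φ v ∈ E').card ≤ E'.card := by
      apply Finset.card_le_card_of_injOn φ
      · intro v hv
        simp only [Finset.coe_filter] at hv
        exact hv.2
      · intro v hv w hw hvw
        simp only [Finset.coe_filter] at hv hw
        obtain ⟨g1, _, h1, h2, _, _⟩ := hTφ v hv.1
        obtain ⟨g2, _, h3, h4, _, _⟩ := hTφ w hw.1
        simp only [φ] at hvw
        rw [Sym2.eq_iff] at hvw
        rcases hvw with h5 | h5
        · exact h5.1
        · have := congrArg (fun v : N.V => v.2.val) h5.1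
          simp only at this
          omega
    have hGood : ((T.filter fun v => ¬ φ v ∈ E') : Set N.V) ⊆ {w | G'.Reachable (cen hN g) w} := by
      intro v hv
      simp only [Finset.coe_filter] at hv
      obtain ⟨g0, hg0, h1, h2, h3, h4⟩ := hTφ v hv.1
      have h5 : G'.Adj v (cen hN g0) := by
        apply adjG'
        · obtain ⟨a, r⟩ := v
          simp only at h1
          subst h1
          exact ⟨rfl, h2, h3, rfl⟩
        · rw [← h4]; exact hv.2
      show G'.Reachable (cen hN g) v
      rcases hg0 with rfl | rfl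
      · exact h5.symm.reachable
      · exact hr.trans h5.symm.reachable
    have h6 : (T.filter fun v => ¬ φ v ∈ E').card ≤ h := by
      refine le_trans ?_ (hc (cen hN g))
      rw [← Set.ncard_coe_finset]
      exact Set.ncard_le_ncard hGood (Set.toFinite _)
    have h7 := Finset.card_filter_add_card_filter_not (s := T) (fun v => φ v ∈ E')
    have h8 := hbig g g'
    omega
  -- Step B
  have hB : ∀ e, ∃ q, ∃ hq : q ≤ N.W, lab hN e q hq ∈ E' ∧ (q = N.W ∨ (q < N.W ∧ N.al e q = true)) := by
    intro e
    by_contra hcon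
    push Not at hcon
    have h1 : ∀ q (hq : q ≤ N.W), G'.Reachable (cen hN (N.tgt e)) (par hN e q hq) := by
      intro q
      induction q with
      | zero => intro hq; rw [par_zero]
      | succ q ih =>
        intro hq
        have hq' : q < N.W := hq
        by_cases hal : N.al e q = true
        · rw [par_succ_of_al hN hal hq', ← chi_lt hN hq']
          refine (ih hq'.le).trans ?_
          refine (adjG' (E_chi_par hN e q hq'.le) ?_).symm.reachable
          intro hmem
          exact (hcon q hq'.le hmem).2 hq' hal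
        · rw [par_succ_of_not hN hal hq']
          exact ih hq'.le
    have h2 : G'.Reachable (cen hN (N.tgt e)) (cen hN (N.src e)) := by
      rw [← chi_W]
      refine (h1 N.W le_rfl).trans ?_
      refine (adjG' (E_chi_par hN e N.W le_rfl) ?_).symm.reachable
      intro hmem
      exact (hcon N.W le_rfl hmem).1 rfl
    exact hA _ _ (hN.hst e).symm h2
  choose x hxW hxE hxs using hB
  -- Step C
  have hinj : Function.Injective fun e => lab hN e (x e) (hxW e) := fun e e' h => lab_arc hN h
  have hE' : E' = Finset.univ.image fun e => lab hN e (x e) (hxW e) := by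
    symm
    apply Finset.eq_of_subset_of_card_le
    · intro ε hε
      obtain ⟨e, _, rfl⟩ := Finset.mem_image.1 hε
      exact hxE e
    · rw [Finset.card_image_of_injective _ hinj]
      exact hcard
  have hlab : ∀ e q (hq : q ≤ N.W), q ≠ x e → lab hN e q hq ∉ E' := by
    intro e q hq hne hmem
    rw [hE'] at hmem
    obtain ⟨e', _, h1⟩ := Finset.mem_image.1 hmem
    have h2 := lab_arc hN h1
    subst h2
    exact hne (lab_pos hN h1).symm
  have hleaf : ∀ (v : N.V) (g g' : Hub), v.1 = .inl g → s(v, cen hN g') ∉ E' := by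
    intro v g g' hv hmem
    rw [hE'] at hmem
    obtain ⟨e', _, h1⟩ := Finset.mem_image.1 hmem
    exact leaf_not_lab hN hv h1.symm
  -- Step D1
  have hD1 : ∀ e q (hq : q ≤ x e), G'.Reachable (cen hN (N.tgt e)) (par hN e q (hq.trans (hxW e))) := by
    intro e q
    induction q with
    | zero => intro hq; rw [par_zero]
    | succ q ih =>
      intro hq
      have hq' : q < N.W := lt_of_lt_of_le hq (hxW e)
      have hqx : q ≤ x e := by omega
      by_cases hal : N.al e q = true
      · rw [par_succ_of_al hN hal hq', ← chi_lt hN hq']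
        refine (ih hqx).trans ?_
        exact (adjG' (E_chi_par hN e q hq'.le) (hlab e q hq'.le (by omega))).symm.reachable
      · rw [par_succ_of_not hN hal hq']
        exact ih hqx
  have hD1' : ∀ e q (hq : q < x e), G'.Reachable (cen hN (N.tgt e)) (un hN e q (lt_of_lt_of_le hq (hxW e))) := by
    intro e q hq
    have hq' : q < N.W := lt_of_lt_of_le hq (hxW e)
    rw [← chi_lt hN hq']
    refine (hD1 e q hq.le).trans ?_
    exact (adjG' (E_chi_par hN e q hq'.le) (hlab e q hq'.le (by omega))).symm.reachable
  -- Step D2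
  have hD2 : ∀ e q (hq : x e < q) (hqW : q ≤ N.W),
      G'.Reachable (par hN e (x e + 1) (by omega)) (par hN e q hqW) := by
    intro e q hq
    induction q, hq using Nat.le_induction with
    | base => intro hqW; exact SimpleGraph.Reachable.refl _
    | succ q hxq ih =>
      intro hqW
      have hq' : q < N.W := hqW
      have hne : q ≠ x e := by have : x e + 1 ≤ q := hxq; omega
      by_cases hal : N.al e q = true
      · rw [par_succ_of_al hN hal hq', ← chi_lt hN hq']
        refine (ih hq'.le).trans ?_
        exact (adjG' (E_chi_par hN e q hq'.le) (hlab e q hq'.le hne)).symm.reachable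
      · rw [par_succ_of_not hN hal hq']
        exact ih hq'.le
  have hD2a : ∀ e (hx : x e < N.W), G'.Reachable (cen hN (N.src e)) (par hN e (x e + 1) hx) := by
    intro e hx
    refine SimpleGraph.Reachable.symm ?_
    refine (hD2 e N.W hx le_rfl).trans ?_
    rw [← chi_W]
    exact (adjG' (E_chi_par hN e N.W le_rfl) (hlab e N.W le_rfl (by omega))).symm.reachable
  have hD2' : ∀ e q (hq : x e ≤ q) (hqW : q < N.W), G'.Reachable (cen hN (N.src e)) (un hN e q hqW) := by
    intro e q hq hqW
    have hx : x e < N.W := by omega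
    rcases hq.eq_or_lt with h1 | h1
    · subst h1
      rcases hxs e with h2 | h2
      · omega
      · rw [← par_succ_of_al hN h2.2 hx]
        exact hD2a e hx
    · rw [← chi_lt hN hqW]
      refine (hD2a e hx).trans ((hD2 e q h1 hqW.le).trans ?_)
      exact (adjG' (E_chi_par hN e q hqW.le) (hlab e q hqW.le (by omega))).symm.reachable
  -- Step E
  have hE : ∀ g, ∑ e with N.tgt e = g, x e ≤ ∑ e with N.src e = g, x e := by
    intro g
    have hsub : ((cls (N := N) x g : Finset N.V) : Set N.V) ⊆ {w | G'.Reachable (cen hN g) w} := by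
      rintro ⟨a, r⟩ hv
      show G'.Reachable (cen hN g) (a, r)
      rw [Finset.mem_coe] at hv
      cases a with
      | inl g' =>
        rw [mem_cls_inl hN] at hv
        obtain ⟨rfl, hr⟩ := hv
        by_cases hr0 : r.val = 0
        · have : ((.inl g', r) : N.V) = cen hN g' := by
            unfold cen; congr 1; exact Fin.ext hr0
          rw [this]
        · have h1r : 1 ≤ r.val := by omega
          refine (adjG' (x := ((.inl g', r) : N.V)) (y := cen hN g') ?_ (hleaf _ g' g' rfl)).symm.reachable
          exact ⟨rfl, h1r, hr, rfl⟩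
      | inr e =>
        rw [mem_cls_inr hN] at hv
        rcases hv with ⟨h1, h2, h3⟩ | ⟨h1, h2, h3⟩
        · rw [← h3]
          exact hD1' e r.val h1
        · rw [← h3]
          exact hD2' e r.val h1 h2
    have h1 : (cls (N := N) x g).card ≤ h := by
      refine le_trans ?_ (hc (cen hN g))
      rw [← Set.ncard_coe_finset]
      exact Set.ncard_le_ncard hsub (Set.toFinite _)
    rw [card_cls hN x hxW g] at h1
    have h2 := hh g
    have h3 : ∑ e with N.src e = g, (N.W - x e) + ∑ e with N.src e = g, x e =
        (Finset.univ.filter fun e => N.src e = g).card * N.W := by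
      rw [← Finset.sum_add_distrib, Finset.sum_congr rfl (fun e _ => Nat.sub_add_cancel (hxW e)), Finset.sum_const, smul_eq_mul]
    omega
  refine ⟨x, hxs, ?_⟩
  have hsum : ∑ g : Hub, ∑ e with N.tgt e = g, x e = ∑ g : Hub, ∑ e with N.src e = g, x e := by
    rw [Finset.sum_fiberwise, Finset.sum_fiberwise]
  have := (Finset.sum_eq_sum_iff_of_le (fun g _ => hE g)).1 hsum
  intro g
  exact this g (Finset.mem_univ _)

/-- Backward direction: a circulation gives a deletion set. -/
theorem backward (hh : ∀ g, 1 + N.Lf g + (Finset.univ.filter fun e => N.src e = g).card * N.W = h) (h1 : 1 ≤ h)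
    (x : Arc → ℕ) (hxs : ∀ e, x e = N.W ∨ (x e < N.W ∧ N.al e (x e) = true))
    (hx : ∀ g, ∑ e with N.tgt e = g, x e = ∑ e with N.src e = g, x e) :
    ∃ E' : Finset (Sym2 N.V), (E' : Set (Sym2 N.V)) ⊆ N.G.edgeSet ∧ E'.card ≤ Fintype.card Arc ∧
      ∀ v, {w | (N.G.deleteEdges (E' : Set (Sym2 N.V))).Reachable v w}.ncard ≤ h := by
  classical
  have hxW : ∀ e, x e ≤ N.W := by
    intro e; rcases hxs e with h | h <;> omega
  let E' : Finset (Sym2 N.V) := Finset.univ.image fun e => lab hN e (x e) (hxW e)
  have hcls : ∀ g, (cls (N := N) x g).card = h := by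
    intro g
    rw [card_cls hN x hxW g]
    have h2 := hh g
    have h3 : ∑ e with N.src e = g, (N.W - x e) + ∑ e with N.src e = g, x e =
        (Finset.univ.filter fun e => N.src e = g).card * N.W := by
      rw [← Finset.sum_add_distrib, Finset.sum_congr rfl (fun e _ => Nat.sub_add_cancel (hxW e)), Finset.sum_const, smul_eq_mul]
    have := hx g
    omega
  refine ⟨E', ?_, ?_, ?_⟩
  · intro ε hε
    rw [Finset.mem_coe] at hε
    obtain ⟨e, _, rfl⟩ := Finset.mem_image.1 hε
    rw [lab, SimpleGraph.mem_edgeSet]
    exact adj_of_E hN (E_chi_par hN e _ _)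
  · exact (Finset.card_image_le).trans (by simp)
  · set G' := N.G.deleteEdges (E' : Set (Sym2 N.V)) with hG'
    -- every related pair surviving lies in a common class
    have key : ∀ v w : N.V, N.E v w → s(v, w) ∉ E' → ∃ g, v ∈ cls (N := N) x g ∧ w ∈ cls (N := N) x g := by
      intro v w hE hnot
      rcases E_cases hN hE with ⟨g, h2, h3, h4, rfl⟩ | ⟨e, q, hq, rfl, rfl⟩
      · refine ⟨g, ?_, ?_⟩
        · obtain ⟨a, r⟩ := v
          simp only at h2
          subst h2
          exact (mem_cls_inl hN).2 ⟨rfl, h4⟩
        · exact (mem_cls_inl hN).2 ⟨rfl, Nat.zero_le _⟩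
      · have hne : q ≠ x e := by
          rintro rfl
          exact hnot (Finset.mem_image.2 ⟨e, Finset.mem_univ _, rfl⟩)
        rcases lt_or_gt_of_ne hne with hlt | hgt
        · refine ⟨N.tgt e, ?_, ?_⟩
          · have hq' : q < N.W := lt_of_lt_of_le hlt (hxW e)
            rw [chi_lt hN hq']
            exact (mem_cls_inr hN).2 (Or.inl ⟨hlt, hq', rfl⟩)
          · unfold par
            split_ifs with h5
            · exact (mem_cls_inl hN).2 ⟨rfl, Nat.zero_le _⟩
            · have h6 := last_le (N.al e) q
              refine (mem_cls_inr hN).2 (Or.inl ⟨?_, ?_, rfl⟩)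
              · show last (N.al e) q - 1 < x e
                omega
              · show last (N.al e) q - 1 < N.W
                omega
        · refine ⟨N.src e, ?_, ?_⟩
          · unfold chi
            split_ifs with h5
            · exact (mem_cls_inr hN).2 (Or.inr ⟨le_of_lt hgt, h5, rfl⟩)
            · exact (mem_cls_inl hN).2 ⟨rfl, Nat.zero_le _⟩
          · have hal : N.al e (x e) = true := by
              rcases hxs e with h6 | h6
              · omega
              · exact h6.2
            have h7 := le_last hal hgt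
            have h6 := last_le (N.al e) q
            unfold par
            rw [dif_neg (by omega)]
            refine (mem_cls_inr hN).2 (Or.inr ⟨?_, ?_, rfl⟩)
            · show x e ≤ last (N.al e) q - 1
              omega
            · show last (N.al e) q - 1 < N.W
              omega
    have huniq : ∀ (v : N.V) g g', v ∈ cls (N := N) x g → v ∈ cls (N := N) x g' → g = g' := by
      rintro ⟨a, r⟩ g g' h2 h3
      cases a with
      | inl g0 =>
        rw [mem_cls_inl hN] at h2 h3
        rw [← h2.1, ← h3.1]
      | inr e =>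
        rw [mem_cls_inr hN] at h2 h3
        rcases h2 with h2 | h2 <;> rcases h3 with h3 | h3
        · rw [← h2.2.2, ← h3.2.2]
        · omega
        · omega
        · rw [← h2.2.2, ← h3.2.2]
    have key2 : ∀ v w : N.V, G'.Adj v w → ∃ g, v ∈ cls (N := N) x g ∧ w ∈ cls (N := N) x g := by
      intro v w hvw
      rw [hG', SimpleGraph.deleteEdges_adj] at hvw
      obtain ⟨h2, h3⟩ := hvw
      unfold G at h2
      rw [SimpleGraph.fromRel_adj] at h2
      rcases h2.2 with h4 | h4
      · exact key v w h4 (by simpa using h3)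
      · obtain ⟨g, h5, h6⟩ := key w v h4 (by rw [Sym2.eq_swap]; simpa using h3)
        exact ⟨g, h6, h5⟩
    have key3 : ∀ v w : N.V, G'.Reachable v w → ∀ g, v ∈ cls (N := N) x g → w ∈ cls (N := N) x g := by
      intro v w hvw g hv
      obtain ⟨p⟩ := hvw
      induction p with
      | nil => exact hv
      | cons hadj _ ih =>
        obtain ⟨g', h5, h6⟩ := key2 _ _ hadj
        rw [huniq _ _ _ hv h5] at ih ⊢
        exact ih h6
    intro v
    by_cases hv : ∃ g, v ∈ cls (N := N) x g
    · obtain ⟨g, hg⟩ := hv
      rw [← hcls g, ← Set.ncard_coe_finset]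
      refine Set.ncard_le_ncard ?_ (Set.toFinite _)
      intro w hw
      exact key3 v w hw g hg
    · have : {w | G'.Reachable v w} ⊆ {v} := by
        rintro w ⟨p⟩
        cases p with
        | nil => exact rfl
        | cons hadj _ =>
          obtain ⟨g, h5, _⟩ := key2 _ _ hadj
          exact absurd ⟨g, h5⟩ hv
      refine (Set.ncard_le_ncard this (Set.toFinite _)).trans ?_
      rw [Set.ncard_singleton]; exact h1

end main

end Net

end Pool.Agent.Helper84.FED
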