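import Pool.Agent.Helper84.FED.Defs
import Pool.Agent.Helper84.FED.Grid
import Pool.Agent.PolyTime.Classes

namespace Pool.Agent.Helper84.FED

open Pool.Agent.PolyTime

abbrev Mat := List (List Bool)

def adjB (M : Mat) (a b : ℕ) : Bool := !(decide (a = b)) && (entry M a b || entry M b a)

def alwF (x : Mat × ℕ × ℕ × ℕ × ℕ) : Bool :=
  bif decide (x.2.1 = 0) then decide (1 ≤ x.2.2.2.2) && decide (x.2.2.2.2 ≤ x.1.length)
  else bif decide (x.2.1 = 1) then
    decide (x.2.2.2.2 % (x.1.length+1) = 0) && (decide (1 ≤ x.2.2.2.2 / (x.1.length+1)) && decide (x.2.2.2.2 / (x.1.length+1) ≤ x.1.length))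
  else decide (x.2.2.2.2 = 0) || (decide (1 ≤ x.2.2.2.2 % (x.1.length+1)) && (decide (1 ≤ x.2.2.2.2 / (x.1.length+1)) && (decide (x.2.2.2.2 / (x.1.length+1) ≤ x.1.length) &&
    (bif decide (x.2.2.1 = x.2.2.2.1) then decide (x.2.2.2.2 % (x.1.length+1) = x.2.2.2.2 / (x.1.length+1)) else
      adjB x.1 (x.2.2.2.2 % (x.1.length+1) - 1) (x.2.2.2.2 / (x.1.length+1) - 1)))))

@[fun_prop]
theorem pt_entry {α : Type} [PEnc α] {M : α → Mat} {f g : α → ℕ} (hM : PolyTime M) (hf : PolyTime f) (hg : PolyTime g) :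
    PolyTime (fun a => entry (M a) (f a) (g a)) := by
  unfold entry
  fun_prop

@[fun_prop]
theorem pt_adjB {α : Type} [PEnc α] {M : α → Mat} {f g : α → ℕ} (hM : PolyTime M) (hf : PolyTime f) (hg : PolyTime g) :
    PolyTime (fun a => adjB (M a) (f a) (g a)) := by
  unfold adjB
  fun_prop

@[fun_prop]
theorem pt_alwF : PolyTime alwF := by
  unfold alwF
  fun_prop

@[fun_prop]
theorem pt_gW {α : Type} [PEnc α] {f : α → ℕ} (hf : PolyTime f) : PolyTime (fun a => gW (f a)) := by
  unfold gW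
  fun_prop

@[fun_prop]
theorem pt_gh {α : Type} [PEnc α] {f g : α → ℕ} (hf : PolyTime f) (hg : PolyTime g) : PolyTime (fun a => gh (f a) (g a)) := by
  unfold gh
  fun_prop

theorem pbd_gW {α : Type} [PEnc α] {f : α → ℕ} (hf : PBd f) : PBd (fun a => gW (f a)) := by
  unfold gW
  exact (hf.add (PBd.const 1)).mul (hf.add (PBd.const 1))

theorem pbd_gh {α : Type} [PEnc α] {f g : α → ℕ} (hf : PBd f) (hg : PBd g) : PBd (fun a => gh (f a) (g a)) := by
  unfold gh
  exact (((PBd.const 4).mul (pbd_gW hf)).add ((PBd.const 3).mul (hg.mul hg))).add (PBd.const 3)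

/-- `last` for the arc of type `t` at `(i, j)`; input `(M, t, i, j, q)` -/
def lastF (x : Mat × ℕ × ℕ × ℕ × ℕ) : ℕ :=
  (List.range (gW x.1.length)).foldl (fun acc w =>
    bif decide (w < x.2.2.2.2) && alwF (x.1, x.2.1, x.2.2.1, x.2.2.2.1, w) then w + 1 else acc) 0

theorem fold_last (al : ℕ → Bool) (q : ℕ) (m : ℕ) :
    (List.range m).foldl (fun acc w => bif decide (w < q) && al w then w + 1 else acc) 0 = last al (min m q) := by
  induction m with
  | zero => simp [last]
  | succ m ih =>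
    rw [List.range_succ, List.foldl_append, ih]
    simp only [List.foldl_cons, List.foldl_nil]
    by_cases h : m < q
    · have h1 : min (m+1) q = min m q + 1 := by omega
      have h2 : min m q = m := by omega
      rw [h1, h2]
      simp only [h, decide_true, Bool.true_and, last]
      cases al m <;> simp
    · have h1 : min (m+1) q = min m q := by omega
      rw [h1]
      simp [h]

theorem lastF_eq (M : Mat) (t i j q : ℕ) (hq : q ≤ gW M.length) :
    lastF (M, t, i, j, q) = last (fun w => alwF (M, t, i, j, w)) q := by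
  unfold lastF
  simp only
  rw [fold_last (fun w => alwF (M, t, i, j, w)) q, min_eq_right hq]

@[fun_prop]
theorem pt_lastF : PolyTime lastF := by
  unfold lastF
  have hn : PolyTime (fun x : Mat × ℕ × ℕ × ℕ × ℕ => gW x.1.length) := by fun_prop
  have hb : PBd (fun x : Mat × ℕ × ℕ × ℕ × ℕ => gW x.1.length) := pbd_gW (pbd_length (by fun_prop))
  refine PolyTime.foldRange (s := fun _ => 0) (h := fun (x : Mat × ℕ × ℕ × ℕ × ℕ) acc w =>
    bif decide (w < x.2.2.2.2) && alwF (x.1, x.2.1, x.2.2.1, x.2.2.2.1, w) then w + 1 else acc) hn hb (by fun_prop) (by fun_prop) hb ?_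
  intro a i hi
  rw [fold_last (fun w => alwF (a.1, a.2.1, a.2.2.1, a.2.2.2.1, w)) a.2.2.2.2 i]
  refine (size_nat_self _).trans ((last_le _ _).trans ?_)
  omega

/-- successor modulo `k` -/
def nxF (k j : ℕ) : ℕ := bif decide (j + 1 = k) then 0 else j + 1

@[fun_prop]
theorem pt_nxF {α : Type} [PEnc α] {f g : α → ℕ} (hf : PolyTime f) (hg : PolyTime g) : PolyTime (fun a => nxF (f a) (g a)) := by
  unfold nxF
  fun_prop

/-- a vertex of the output graph as a tuple of numbers `(kind, i, j, r)` -/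
abbrev Quad := ℕ × ℕ × ℕ × ℕ

/-- edge test on quadruples; input `(M, k), x, y` -/
def edgeF (z : (Mat × ℕ) × Quad × Quad) : Bool :=
  bif decide (z.2.1.1 < 2) then
    bif decide (z.2.2.1 < 2) then
      (decide (z.2.1.1 = z.2.2.1) && decide (z.2.1.2.1 = z.2.2.2.1)) && (decide (z.2.1.2.2.1 = z.2.2.2.2.1) &&
      (decide (1 ≤ z.2.1.2.2.2) && (decide (z.2.1.2.2.2 ≤ (bif decide (z.2.1.1 = 1) then
        gh z.1.1.length z.1.2 - 1 - 2 * gW z.1.1.length else gh z.1.1.length z.1.2 - 1 - gW z.1.1.length)) && decide (z.2.2.2.2.2 = 0))))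
    else
      (decide (z.2.1.2.2.2 = 0) && (decide (z.2.1.1 = (bif decide (z.2.2.1 ≤ 3) then 1 else 0)) &&
       (decide (z.2.2.2.1 = z.2.1.2.1) && decide (z.2.2.2.2.1 = z.2.1.2.2.1)))) &&
      (decide (z.2.2.2.2.2 < gW z.1.1.length) &&
       decide (lastF (z.1.1, z.2.2.1 - 2, z.2.2.2.1, z.2.2.2.2.1, gW z.1.1.length) = z.2.2.2.2.2 + 1))
  else
    bif decide (z.2.2.1 < 2) then
      (decide (z.2.1.2.2.2 < gW z.1.1.length) && decide (z.2.2.2.2.2 = 0)) &&
      ((bif decide (z.2.1.1 = 2) then decide (z.2.2.1 = 0) && (decide (z.2.2.2.1 = z.2.1.2.1) && decide (z.2.2.2.2.1 = nxF z.1.2 z.2.1.2.2.1))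
        else bif decide (z.2.1.1 = 3) then decide (z.2.2.1 = 0) && (decide (z.2.2.2.1 = nxF z.1.2 z.2.1.2.1) && decide (z.2.2.2.2.1 = z.2.1.2.2.1))
        else decide (z.2.2.1 = 1) && (decide (z.2.2.2.1 = z.2.1.2.1) && decide (z.2.2.2.2.1 = z.2.1.2.2.1))) &&
       decide (lastF (z.1.1, z.2.1.1 - 2, z.2.1.2.1, z.2.1.2.2.1, z.2.1.2.2.2) = 0))
    else
      ((decide (z.2.1.1 = z.2.2.1) && decide (z.2.1.2.1 = z.2.2.2.1)) && (decide (z.2.1.2.2.1 = z.2.2.2.2.1) &&
      (decide (z.2.1.2.2.2 < gW z.1.1.length)))) &&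
      decide (lastF (z.1.1, z.2.1.1 - 2, z.2.1.2.1, z.2.1.2.2.1, z.2.1.2.2.2) = z.2.2.2.2.2 + 1)

@[fun_prop]
theorem pt_edgeF : PolyTime edgeF := by
  unfold edgeF
  fun_prop

/-- decoding a vertex number -/
def decF (k h u : ℕ) : Quad := (u / h / k / k, u / h / k % k, u / h % k, u % h)

@[fun_prop]
theorem pt_decF {α : Type} [PEnc α] {f g u : α → ℕ} (hf : PolyTime f) (hg : PolyTime g) (hu : PolyTime u) :
    PolyTime (fun a => decF (f a) (g a) (u a)) := by
  unfold decF
  fun_prop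

/-- number of vertices of the output graph; input `(M, k)` -/
def numF (z : Mat × ℕ) : ℕ := 5 * (min z.1.length z.2 * min z.1.length z.2 * gh z.1.length (min z.1.length z.2))

@[fun_prop]
theorem pt_numF : PolyTime numF := by
  unfold numF
  fun_prop

theorem pbd_numF : PBd numF := by
  unfold numF
  have h1 : PBd (fun z : Mat × ℕ => z.1.length) := pbd_length (by fun_prop)
  have h2 : PBd (fun z : Mat × ℕ => min z.1.length z.2) := h1.mono (fun _ => min_le_left _ _)
  exact (PBd.const 5).mul ((h2.mul h2).mul (pbd_gh h1 h2))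

@[fun_prop]
theorem pt_rangeNum : PolyTime (fun z : Mat × ℕ => List.range (numF z)) := PolyTime.range pt_numF pbd_numF

def edgeN (z : Mat × ℕ) (u v : ℕ) : Bool :=
  edgeF (z, decF z.2 (gh z.1.length z.2) u, decF z.2 (gh z.1.length z.2) v)

@[fun_prop]
theorem pt_edgeN {α : Type} [PEnc α] {z : α → Mat × ℕ} {f g : α → ℕ} (hz : PolyTime z) (hf : PolyTime f) (hg : PolyTime g) :
    PolyTime (fun a => edgeN (z a) (f a) (g a)) := by
  unfold edgeN
  fun_prop

def matF (z : Mat × ℕ) : Mat := (List.range (numF z)).map fun u => (List.range (numF z)).map fun v => edgeN z u v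

@[fun_prop]
theorem pt_matF : PolyTime matF := by
  unfold matF
  refine PolyTime.map (g := fun (z : Mat × ℕ) (u : ℕ) => (List.range (numF z)).map fun v => edgeN z u v) pt_rangeNum ?_
  exact PolyTime.map (l := fun p : (Mat × ℕ) × ℕ => List.range (numF p.1))
    (g := fun (p : (Mat × ℕ) × ℕ) (v : ℕ) => edgeN p.1 p.2 v) (pt_rangeNum.comp PolyTime.fst') (by fun_prop)

def redF (z : Mat × ℕ) : Mat × ℕ × ℕ :=
  bif decide (z.2 = 0) then ([[false]], 1, 1)
  else bif decide (z.1.length < z.2) then ([[false, true, true], [true, false, true], [true, true, false]], 1, 1)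
  else (matF z, 3 * (z.2 * z.2), gh z.1.length z.2)

theorem pt_redF : PolyTime redF := by
  unfold redF
  fun_prop

end Pool.Agent.Helper84.FED
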